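import Mathlib

/-!
Illumination of the polytopes `{x : x i - x j ≤ c i j}`.
-/

set_option autoImplicit false

open Finset Filter Topology

namespace Q123.PT

variable {n : ℕ}

/-- the coordinates, with `0` in the place number `0` -/
def ext (y : Fin n → ℝ) : Fin (n + 1) → ℝ := Fin.cons 0 y

/-- the polytope -/
def body (c : Fin (n + 1) → Fin (n + 1) → ℝ) : Set (Fin n → ℝ) :=
  {y | ∀ i j, i ≠ j → ext y i - ext y j ≤ c i j}

/-- the exterior point `p` illuminates the boundary point `q` -/
def Illum (K : Set (Fin n → ℝ)) (p q : Fin n → ℝ) : Prop :=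
  p ∉ K ∧ ∃ s : ℝ, 1 < s ∧ p + s • (q - p) ∈ interior K

/-- `N` exterior points illuminate the boundary -/
def IllumLE (K : Set (Fin n → ℝ)) (N : ℕ) : Prop :=
  ∃ P : Finset (Fin n → ℝ), P.card ≤ N ∧ ∀ q ∈ frontier K, ∃ p ∈ P, Illum K p q

lemma continuous_ext (i : Fin (n + 1)) : Continuous fun y : Fin n → ℝ => ext y i := by
  unfold ext
  refine Fin.cases ?_ (fun k => ?_) i
  · simp only [Fin.cons_zero]
    exact continuous_const
  · simp only [Fin.cons_succ]
    exact continuous_apply k

lemma ext_add (y z : Fin n → ℝ) (i : Fin (n + 1)) : ext (y + z) i = ext y i + ext z i := by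
  unfold ext
  refine Fin.cases ?_ (fun k => ?_) i <;> simp

lemma ext_sub (y z : Fin n → ℝ) (i : Fin (n + 1)) : ext (y - z) i = ext y i - ext z i := by
  unfold ext
  refine Fin.cases ?_ (fun k => ?_) i <;> simp

lemma ext_smul (s : ℝ) (y : Fin n → ℝ) (i : Fin (n + 1)) : ext (s • y) i = s * ext y i := by
  unfold ext
  refine Fin.cases ?_ (fun k => ?_) i <;> simp

lemma isClosed_body (c : Fin (n + 1) → Fin (n + 1) → ℝ) : IsClosed (body c) := by
  unfold body
  simp only [Set.ofPred_forall]
  refine isClosed_iInter fun i => isClosed_iInter fun j => isClosed_iInter fun _ => ?_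
  exact isClosed_le ((continuous_ext i).sub (continuous_ext j)) continuous_const

/-- the points at which all inequalities are strict are interior -/
lemma strict_mem_interior {c : Fin (n + 1) → Fin (n + 1) → ℝ} {y : Fin n → ℝ}
    (h : ∀ i j, i ≠ j → ext y i - ext y j < c i j) : y ∈ interior (body c) := by
  rw [mem_interior]
  refine ⟨{y | ∀ i j, i ≠ j → ext y i - ext y j < c i j}, fun z hz i j hij => (hz i j hij).le, ?_, h⟩
  have : {y : Fin n → ℝ | ∀ i j, i ≠ j → ext y i - ext y j < c i j} =
      ⋂ i, ⋂ j, ⋂ _ : i ≠ j, {y : Fin n → ℝ | ext y i - ext y j < c i j} := by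
    ext y
    simp
  rw [this]
  refine isOpen_iInter_of_finite fun i => isOpen_iInter_of_finite fun j =>
    isOpen_iInter_of_finite fun _ => ?_
  exact isOpen_lt ((continuous_ext i).sub (continuous_ext j)) continuous_const

/-- `N` integer functions on the places, such that for every point of the boundary one of them
increases along all equalities -/
def Served (c : Fin (n + 1) → Fin (n + 1) → ℝ) (N : ℕ) : Prop :=
  ∃ D : Fin N → Fin (n + 1) → ℤ, ∀ q ∈ body c, (∃ i j, i ≠ j ∧ ext q i - ext q j = c i j) →
      ∃ l, ∀ i j, i ≠ j → ext q i - ext q j = c i j → D l i < D l j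

lemma served_of {κ : Type} [Fintype κ] {c : Fin (n + 1) → Fin (n + 1) → ℝ}
    (D : κ → Fin (n + 1) → ℤ)
    (hD : ∀ q ∈ body c, (∃ i j, i ≠ j ∧ ext q i - ext q j = c i j) →
      ∃ l, ∀ i j, i ≠ j → ext q i - ext q j = c i j → D l i < D l j) :
    Served c (Fintype.card κ) := by
  refine ⟨fun l => D ((Fintype.equivFin κ).symm l), fun q hq h => ?_⟩
  obtain ⟨l, hl⟩ := hD q hq h
  exact ⟨Fintype.equivFin κ l, by simpa using hl⟩

/-- directions, given by integer functions on the places, which illuminate everything -/
theorem illum_of_served {N : ℕ} {c : Fin (n + 1) → Fin (n + 1) → ℝ} (hs : Served c N) :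
    IllumLE (body c) N := by
  classical
  obtain ⟨D, hD⟩ := hs
  obtain ⟨t, ht⟩ : ∃ t : ℝ, ∀ i j, c i j < t := by
    obtain ⟨t, ht⟩ := (Set.finite_range fun p : Fin (n + 1) × Fin (n + 1) => c p.1 p.2).bddAbove
    exact ⟨t + 1, fun i j => lt_of_le_of_lt (ht ⟨(i, j), rfl⟩) (lt_add_one t)⟩
  let p : Fin N → Fin n → ℝ := fun l k => -(t * ((D l k.succ : ℝ) - D l 0))
  have hp : ∀ l i, ext (p l) i = -(t * ((D l i : ℝ) - D l 0)) := by
    intro l i
    unfold ext
    refine Fin.cases ?_ (fun k => ?_) i
    · simp
    · simp only [Fin.cons_succ]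
      rfl
  refine ⟨univ.image p, card_image_le.trans (by rw [card_univ, Fintype.card_fin]), fun q hq => ?_⟩
  have hqK : q ∈ body c := (isClosed_body c).frontier_subset hq
  have htight : ∃ i j, i ≠ j ∧ ext q i - ext q j = c i j := by
    by_contra hcon
    push Not at hcon
    have : q ∈ interior (body c) :=
      strict_mem_interior fun i j hij => lt_of_le_of_ne (hqK i j hij) (hcon i j hij)
    exact hq.2 this
  obtain ⟨l, hl⟩ := hD q hqK htight
  have hgap : ∀ i j, i ≠ j → ext q i - ext q j = c i j → c i j < t * (D l j - D l i) := by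
    intro i j hij h
    have h1 : (D l i : ℝ) + 1 ≤ D l j := by exact_mod_cast hl i j hij h
    obtain ⟨i0, j0, hij0, h0⟩ := htight
    -- `t` is positive or the inequality is clear
    have h2 := ht i j
    by_cases ht0 : 0 ≤ t
    · nlinarith
    · exfalso
      push Not at ht0
      have h3 := hqK j i hij.symm
      have h4 := ht j i
      linarith
  refine ⟨p l, mem_image_of_mem _ (mem_univ _), ?_, ?_⟩
  · intro hpK
    obtain ⟨i, j, hij, h⟩ := htight
    have h1 := hpK i j hij
    rw [hp, hp] at h1
    have h2 := hgap i j hij h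
    linarith
  · have hev : ∀ᶠ η : ℝ in 𝓝[>] 0, ∀ i j, i ≠ j →
        ext (p l + (1 + η) • (q - p l)) i - ext (p l + (1 + η) • (q - p l)) j < c i j := by
      rw [eventually_all]
      intro i
      rw [eventually_all]
      intro j
      by_cases hij : i = j
      · exact Eventually.of_forall fun η h => absurd hij h
      · have hform : ∀ η : ℝ, ext (p l + (1 + η) • (q - p l)) i -
            ext (p l + (1 + η) • (q - p l)) j =
            (ext q i - ext q j) + η * ((ext q i - ext q j) - t * (D l j - D l i)) := by
          intro η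
          rw [ext_add, ext_add, ext_smul, ext_smul, ext_sub, ext_sub, hp, hp]
          ring
        by_cases h : ext q i - ext q j = c i j
        · filter_upwards [self_mem_nhdsWithin] with η hη _
          rw [hform, h]
          have h1 := hgap i j hij h
          have hη : 0 < η := hη
          nlinarith
        · have hlt : ext q i - ext q j < c i j := lt_of_le_of_ne (hqK i j hij) h
          have hcont : Tendsto (fun η : ℝ => (ext q i - ext q j) +
              η * ((ext q i - ext q j) - t * (D l j - D l i))) (𝓝[>] 0)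
              (𝓝 ((ext q i - ext q j) + 0 * ((ext q i - ext q j) - t * (D l j - D l i)))) := by
            apply tendsto_nhdsWithin_of_tendsto_nhds
            apply Continuous.tendsto
            fun_prop
          rw [zero_mul, add_zero] at hcont
          filter_upwards [hcont.eventually_lt_const hlt] with η hη _
          rw [hform]
          exact hη
    obtain ⟨η, hη, hη0⟩ := (hev.and self_mem_nhdsWithin).exists
    have hη0 : 0 < η := hη0
    exact ⟨1 + η, by linarith, strict_mem_interior hη⟩

end Q123.PT
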