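import Pool.Agent.Q123.PT.Basic
import Pool.Agent.H643R2.ChainDec

/-!
Illumination of the polytopes `{x : x i - x j ≤ c i j}`: strict triangle inequalities, and
equalities only at one point.
-/

set_option autoImplicit false

open Finset

namespace Q123.PT

open Pool.Agent.H643R2.ChainDec (IsAC CDec dilworth)

variable {n : ℕ} {c : Fin (n + 1) → Fin (n + 1) → ℝ}

/-- positive off the diagonal, triangle inequality -/
def QM (c : Fin (n + 1) → Fin (n + 1) → ℝ) : Prop :=
  (∀ i j, i ≠ j → 0 < c i j) ∧ ∀ i j k, i ≠ j → j ≠ k → i ≠ k → c i k ≤ c i j + c j k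

/-- at a point of the body two consecutive equalities come from a tight triangle -/
lemma tight (hc : QM c) {q : Fin n → ℝ} (hq : q ∈ body c) {i j k : Fin (n + 1)} (hij : i ≠ j)
    (hjk : j ≠ k) (h1 : ext q i - ext q j = c i j) (h2 : ext q j - ext q k = c j k) :
    i ≠ k ∧ c i k = c i j + c j k ∧ ext q i - ext q k = c i k := by
  have hik : i ≠ k := by
    rintro rfl
    have := hc.1 i j hij
    have := hc.1 j i hjk
    linarith
  have h3 := hc.2 i j k hij hjk hik
  have h4 := hq i k hik
  exact ⟨hik, by linarith, by linarith⟩

/-- no tight triangle -/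
theorem strict_case (hc : QM c)
    (hs : ∀ i j k, i ≠ j → j ≠ k → i ≠ k → c i k < c i j + c j k) :
    Served c ((n + 1).choose ((n + 1) / 2)) := by
  classical
  obtain ⟨f, hf⟩ := dilworth (α := Finset (Fin (n + 1))) ((n + 1).choose ((n + 1) / 2)) (by
    intro 𝒜 h𝒜
    have h1 : IsAntichain (· ⊆ ·) (𝒜 : Set (Finset (Fin (n + 1)))) := by
      intro A hA B hB hAB hsub
      exact hAB (h𝒜 A hA B hB hsub)
    have := h1.sperner
    rwa [Fintype.card_fin] at this)
  have h := served_of (c := c)
    (fun (l : Fin ((n + 1).choose ((n + 1) / 2))) (i : Fin (n + 1)) =>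
      (((univ.filter fun A => f A = l ∧ i ∉ A).card : ℕ) : ℤ)) ?_
  · rwa [Fintype.card_fin] at h
  · intro q hq _
    set S : Finset (Fin (n + 1)) := univ.filter fun i => ∃ j, i ≠ j ∧ ext q i - ext q j = c i j
      with hS
    refine ⟨f S, fun i j hij hij' => ?_⟩
    have hi : i ∈ S := mem_filter.2 ⟨mem_univ _, j, hij, hij'⟩
    have hj : j ∉ S := by
      intro hj
      obtain ⟨k, hjk, hjk'⟩ := (mem_filter.1 hj).2
      obtain ⟨hik, h1, _⟩ := tight hc hq hij hjk hij' hjk'
      exact absurd h1 (hs i j k hij hjk hik).ne
    have hlt : (univ.filter fun A => f A = f S ∧ i ∉ A).card <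
        (univ.filter fun A => f A = f S ∧ j ∉ A).card := by
      apply card_lt_card
      rw [ssubset_iff_of_subset]
      · refine ⟨S, mem_filter.2 ⟨mem_univ _, rfl, hj⟩, ?_⟩
        intro h
        exact (mem_filter.1 h).2.2 hi
      · intro A hA
        rw [mem_filter] at hA ⊢
        refine ⟨mem_univ _, hA.2.1, fun hjA => ?_⟩
        rcases hf A S hA.2.1 with h | h
        · exact hj (h hjA)
        · exact hA.2.2 (h hi)
    exact_mod_cast hlt

/-- tight triangles only at the point `0` -/
def TightAtZero (c : Fin (n + 1) → Fin (n + 1) → ℝ) : Prop :=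
  ∀ i j k, i ≠ j → j ≠ k → i ≠ k → c i k = c i j + c j k → j = 0

open Classical in
theorem zero_case (hc : QM c) (hz : TightAtZero c) : Served c (2 ^ n) := by
  have h := served_of (c := c)
    (fun (A : Finset (Fin n)) (i : Fin (n + 1)) =>
      if i = 0 then (1 : ℤ) else if ∃ k ∈ A, i = Fin.succ k then 0 else 2) ?_
  · rwa [Fintype.card_finset, Fintype.card_fin] at h
  · intro q hq _
    set A : Finset (Fin n) := univ.filter fun k =>
      ∃ j, k.succ ≠ j ∧ ext q k.succ - ext q j = c k.succ j with hA
    refine ⟨A, fun i j hij hij' => ?_⟩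
    have hjA : j ≠ 0 → ¬ ∃ k ∈ A, j = Fin.succ k := by
      rintro hj0 ⟨k, hk, rfl⟩
      obtain ⟨m, hkm, hkm'⟩ := (mem_filter.1 hk).2
      obtain ⟨him, h1, _⟩ := tight hc hq hij hkm hij' hkm'
      exact hj0 (hz _ _ _ hij hkm him h1)
    by_cases hi : i = 0
    · have hj : j ≠ 0 := fun h => hij (hi.trans h.symm)
      simp only [if_pos hi, if_neg hj, if_neg (hjA hj)]
      norm_num
    · obtain ⟨k, rfl⟩ := Fin.exists_succ_eq.2 hi
      have hk : ∃ k' ∈ A, k.succ = Fin.succ k' :=
        ⟨k, mem_filter.2 ⟨mem_univ _, j, hij, hij'⟩, rfl⟩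
      simp only [if_neg hi, if_pos hk]
      by_cases hj : j = 0
      · simp only [if_pos hj]
        norm_num
      · simp only [if_neg hj, if_neg (hjA hj)]
        norm_num

open Classical in
/-- one direction less, unless the body is a box -/
theorem zero_case' (hc : QM c) (hz : TightAtZero c) {i0 j0 : Fin n} (hij0 : i0 ≠ j0)
    (hne : c i0.succ j0.succ ≠ c i0.succ 0 + c 0 j0.succ) :
    Served c (2 ^ n - 1) := by
  have h := served_of (c := c) (κ := {A : Finset (Fin n) // A ≠ {i0}})
    (fun A i =>
      if A.1 = ∅ then (if i = 0 then (0 : ℤ) else if i = i0.succ then 1 else 2)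
      else if A.1 = {i0, j0} then
        (if i = i0.succ then 0 else if i = j0.succ then 1 else if i = 0 then 2 else 3)
      else (if i = 0 then (1 : ℤ) else if ∃ k ∈ A.1, i = Fin.succ k then 0 else 2)) ?_
  · have hcard : Fintype.card {A : Finset (Fin n) // A ≠ {i0}} = 2 ^ n - 1 := by
      rw [Fintype.card_subtype_compl, Fintype.card_finset, Fintype.card_fin,
        Fintype.card_subtype_eq]
    rwa [hcard] at h
  · intro q hq _
    set A : Finset (Fin n) := univ.filter fun k =>
      ∃ j, k.succ ≠ j ∧ ext q k.succ - ext q j = c k.succ j with hA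
    have hsrc : ∀ (k : Fin n) (j : Fin (n + 1)), k.succ ≠ j →
        ext q k.succ - ext q j = c k.succ j → k ∈ A := fun k j h1 h2 =>
      mem_filter.2 ⟨mem_univ _, j, h1, h2⟩
    have htgt : ∀ (i : Fin (n + 1)) (k : Fin n), i ≠ k.succ →
        ext q i - ext q k.succ = c i k.succ → k ∉ A := by
      intro i k hij hij' hk
      obtain ⟨m, hkm, hkm'⟩ := (mem_filter.1 hk).2
      obtain ⟨him, h1, _⟩ := tight hc hq hij hkm hij' hkm'
      exact absurd (hz _ _ _ hij hkm him h1) (Fin.succ_ne_zero k)
    have hz1 : (0 : Fin (n + 1)) ≠ i0.succ := (Fin.succ_ne_zero i0).symm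
    have hz2 : (0 : Fin (n + 1)) ≠ j0.succ := (Fin.succ_ne_zero j0).symm
    have hz3 : i0.succ ≠ j0.succ := fun h => hij0 (Fin.succ_injective n h)
    by_cases hA1 : A = {i0}
    · by_cases h0 : ext q i0.succ - ext q 0 = c i0.succ 0
      · -- `i0 → 0`: use the order `i0, j0, 0, ...`
        refine ⟨⟨{i0, j0}, fun h => ?_⟩, fun i j hij hij' => ?_⟩
        · have : j0 ∈ ({i0} : Finset (Fin n)) := by rw [← h]; simp
          exact hij0 (mem_singleton.1 this).symm
        · have e1 : ({i0, j0} : Finset (Fin n)) ≠ ∅ := by simp
          simp only [if_neg e1, if_true]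
          by_cases hi : i = 0
          · subst hi
            have hj0 : j ≠ 0 := hij.symm
            have hj1 : j ≠ i0.succ := by
              rintro rfl
              have := hc.1 _ _ hij
              have := hc.1 _ _ hij.symm
              linarith
            have hj2 : j ≠ j0.succ := by
              rintro rfl
              obtain ⟨_, h1, _⟩ := tight hc hq hz1.symm hij h0 hij'
              exact hne h1
            rw [if_neg hz1, if_neg hz2, if_pos rfl, if_neg hj1, if_neg hj2, if_neg hj0]
            norm_num
          · obtain ⟨k, rfl⟩ := Fin.exists_succ_eq.2 hi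
            have hk := hsrc k j hij hij'
            rw [hA1, mem_singleton] at hk
            subst hk
            have hj1 : j ≠ k.succ := hij.symm
            rw [if_pos rfl, if_neg hj1]
            split_ifs <;> norm_num
      · -- no arc from `i0` to `0`: use the order `0, i0, ...`
        refine ⟨⟨∅, fun h => ?_⟩, fun i j hij hij' => ?_⟩
        · exact absurd h.symm (singleton_ne_empty i0)
        · simp only [if_true]
          by_cases hi : i = 0
          · subst hi
            have hj0 : j ≠ 0 := hij.symm
            have hj1 : j ≠ i0.succ := by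
              rintro rfl
              have := htgt _ _ hij hij'
              rw [hA1] at this
              exact this (mem_singleton_self _)
            rw [if_pos rfl, if_neg hj0, if_neg hj1]
            norm_num
          · obtain ⟨k, rfl⟩ := Fin.exists_succ_eq.2 hi
            have hk := hsrc k j hij hij'
            rw [hA1, mem_singleton] at hk
            subst hk
            have hj0 : j ≠ 0 := by
              rintro rfl
              exact h0 hij'
            rw [if_neg hi, if_pos rfl, if_neg hj0, if_neg hij.symm]
            norm_num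
    · refine ⟨⟨A, hA1⟩, fun i j hij hij' => ?_⟩
      by_cases hA0 : A = ∅
      · simp only [if_pos hA0]
        by_cases hi : i = 0
        · subst hi
          rw [if_pos rfl, if_neg hij.symm]
          split_ifs <;> norm_num
        · obtain ⟨k, rfl⟩ := Fin.exists_succ_eq.2 hi
          have hk := hsrc k j hij hij'
          rw [hA0] at hk
          exact absurd hk (notMem_empty _)
      · by_cases hA2 : A = {i0, j0}
        · simp only [if_neg hA0, if_pos hA2]
          have hj1 : j ≠ i0.succ := by
            rintro rfl
            have := htgt _ _ hij hij'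
            rw [hA2] at this
            exact this (by simp)
          have hj2 : j ≠ j0.succ := by
            rintro rfl
            have := htgt _ _ hij hij'
            rw [hA2] at this
            exact this (by simp)
          rw [if_neg hj1, if_neg hj2]
          by_cases hi : i = 0
          · subst hi
            rw [if_neg hz1, if_neg hz2, if_pos rfl, if_neg hij.symm]
            norm_num
          · obtain ⟨k, rfl⟩ := Fin.exists_succ_eq.2 hi
            have hk := hsrc k j hij hij'
            rw [hA2, mem_insert, mem_singleton] at hk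
            rcases hk with rfl | rfl
            · rw [if_pos rfl]
              split_ifs <;> norm_num
            · rw [if_neg hz3.symm, if_pos rfl]
              split_ifs <;> norm_num
        · simp only [if_neg hA0, if_neg hA2]
          have hjA : j ≠ 0 → ¬ ∃ k ∈ A, j = Fin.succ k := by
            rintro hj0 ⟨k, hk, rfl⟩
            exact htgt _ _ hij hij' hk
          by_cases hi : i = 0
          · have hj : j ≠ 0 := fun h => hij (hi.trans h.symm)
            simp only [if_pos hi, if_neg hj, if_neg (hjA hj)]
            norm_num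
          · obtain ⟨k, rfl⟩ := Fin.exists_succ_eq.2 hi
            have hk : ∃ k' ∈ A, k.succ = Fin.succ k' := ⟨k, hsrc k j hij hij', rfl⟩
            simp only [if_neg hi, if_pos hk]
            by_cases hj : j = 0
            · simp only [if_pos hj]
              norm_num
            · simp only [if_neg hj, if_neg (hjA hj)]
              norm_num

/-- if all triangles with the middle point `0` are tight, the body is a box -/
theorem box_case
    (h : ∀ i j : Fin n, i ≠ j → c i.succ j.succ = c i.succ 0 + c 0 j.succ) :
    body c = Set.Icc (fun i => -c 0 i.succ) (fun i => c i.succ 0) := by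
  ext y
  constructor
  · intro hy
    constructor
    · intro i
      have := hy 0 i.succ (Fin.succ_ne_zero i).symm
      unfold ext at this
      rw [Fin.cons_zero, Fin.cons_succ] at this
      change -c 0 i.succ ≤ y i
      linarith
    · intro i
      have := hy i.succ 0 (Fin.succ_ne_zero i)
      unfold ext at this
      rw [Fin.cons_zero, Fin.cons_succ] at this
      change y i ≤ c i.succ 0
      linarith
  · rintro ⟨h1, h2⟩ i j hij
    unfold ext
    by_cases hi : i = 0
    · subst hi
      obtain ⟨k, rfl⟩ := Fin.exists_succ_eq.2 hij.symm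
      rw [Fin.cons_zero, Fin.cons_succ]
      have := h1 k
      simp only at this
      linarith
    · obtain ⟨k, rfl⟩ := Fin.exists_succ_eq.2 hi
      by_cases hj : j = 0
      · subst hj
        rw [Fin.cons_zero, Fin.cons_succ]
        have := h2 k
        simp only at this
        linarith
      · obtain ⟨m, rfl⟩ := Fin.exists_succ_eq.2 hj
        rw [Fin.cons_succ, Fin.cons_succ]
        have hkm : k ≠ m := fun h => hij (by rw [h])
        have := h k m hkm
        have := h2 k
        have := h1 m
        simp only at *
        linarith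

/-- it is a convex body -/
theorem body_convex (c : Fin (n + 1) → Fin (n + 1) → ℝ) : Convex ℝ (body c) := by
  intro y hy z hz a b ha hb hab i j hij
  rw [ext_add, ext_add, ext_smul, ext_smul, ext_smul, ext_smul]
  have h1 := mul_le_mul_of_nonneg_left (hy i j hij) ha
  have h2 := mul_le_mul_of_nonneg_left (hz i j hij) hb
  have h3 : c i j = a * c i j + b * c i j := by rw [← add_mul, hab, one_mul]
  linarith

theorem body_compact (c : Fin (n + 1) → Fin (n + 1) → ℝ) : IsCompact (body c) := by
  refine IsCompact.of_isClosed_subset
    (isCompact_Icc (a := fun i : Fin n => -c 0 i.succ) (b := fun i : Fin n => c i.succ 0))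
    (isClosed_body c) ?_
  intro y hy
  constructor
  · intro i
    have := hy 0 i.succ (Fin.succ_ne_zero i).symm
    unfold ext at this
    rw [Fin.cons_zero, Fin.cons_succ] at this
    change -c 0 i.succ ≤ y i
    linarith
  · intro i
    have := hy i.succ 0 (Fin.succ_ne_zero i)
    unfold ext at this
    rw [Fin.cons_zero, Fin.cons_succ] at this
    change y i ≤ c i.succ 0
    linarith

theorem zero_mem_interior (hc : QM c) : (0 : Fin n → ℝ) ∈ interior (body c) := by
  apply strict_mem_interior
  intro i j hij
  have h0 : ∀ i, ext (0 : Fin n → ℝ) i = 0 := by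
    intro i
    unfold ext
    refine Fin.cases ?_ (fun k => ?_) i <;> simp
  rw [h0, h0, sub_zero]
  exact hc.1 i j hij

/-- the numerical comparison -/
theorem choose_lt {n : ℕ} (hn : 2 ≤ n) : (n + 1).choose ((n + 1) / 2) < 2 ^ n := by
  obtain ⟨m, rfl⟩ : ∃ m, n = m + 2 := ⟨n - 2, by omega⟩
  set r := (m + 3) / 2 with hr
  have hr1 : 1 ≤ r := by omega
  obtain ⟨s, hs⟩ : ∃ s, r = s + 1 := ⟨r - 1, by omega⟩
  have h1 : (m + 2 + 1).choose ((m + 2 + 1) / 2) = (m + 2).choose s + (m + 2).choose (s + 1) := by
    rw [show (m + 2 + 1) / 2 = s + 1 by omega, Nat.choose_succ_succ]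
  rw [h1, ← Nat.sum_range_choose (m + 2)]
  have hsub : ({s, s + 1} : Finset ℕ) ⊆ range (m + 2 + 1) := by
    intro x hx
    rw [mem_insert, mem_singleton] at hx
    rw [mem_range]
    omega
  have h2 : ∑ i ∈ ({s, s + 1} : Finset ℕ), (m + 2).choose i =
      (m + 2).choose s + (m + 2).choose (s + 1) := sum_pair (by omega)
  rw [← h2]
  obtain ⟨i, hi1, hi2, hi3⟩ : ∃ i, i ∈ range (m + 2 + 1) ∧ i ∉ ({s, s + 1} : Finset ℕ) ∧
      0 < (m + 2).choose i := by
    by_cases h : s = 0
    · refine ⟨m + 2, mem_range.2 (by omega), ?_, by simp⟩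
      rw [mem_insert, mem_singleton]
      omega
    · refine ⟨0, mem_range.2 (by omega), ?_, by simp⟩
      rw [mem_insert, mem_singleton]
      omega
  exact sum_lt_sum_of_subset hsub hi1 hi2 hi3 fun _ _ _ => Nat.zero_le _

end Q123.PT
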