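import Mathlib

/-!
Orders serving the potentials of a quasi-metric, built by removing points which are not between
two other points.
-/

set_option autoImplicit false

open Finset

set_option linter.unusedSectionVars false

namespace Q123.PT

variable {ι : Type*} [DecidableEq ι] {c : ι → ι → ℝ}

/-- quasi-metrics with zero diagonal -/
structure QM0 (c : ι → ι → ℝ) : Prop where
  diag : ∀ i, c i i = 0
  pos : ∀ i j, i ≠ j → 0 < c i j
  tri : ∀ i j k, c i k ≤ c i j + c j k

/-- potentials on `M` -/
def Pot (c : ι → ι → ℝ) (M : Finset ι) (q : ι → ℝ) : Prop :=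
  ∀ i ∈ M, ∀ j ∈ M, q i - q j ≤ c i j

/-- `D` increases along all tight pairs -/
def Ok (c : ι → ι → ℝ) (M : Finset ι) (q D : ι → ℝ) : Prop :=
  ∀ i ∈ M, ∀ j ∈ M, i ≠ j → q i - q j = c i j → D i < D j

/-- `k` functions suffice for all potentials -/
def Srv (c : ι → ι → ℝ) (M : Finset ι) (k : ℕ) : Prop :=
  ∃ F : Finset (ι → ℝ), F.card ≤ k ∧ ∀ q, Pot c M q → ∃ D ∈ F, Ok c M q D

/-- fewer functions suffice for all potentials other than `q₀` -/
def Sav (c : ι → ι → ℝ) (M : Finset ι) (q₀ : ι → ℝ) : Prop :=
  ∃ F : Finset (ι → ℝ), F.card + 1 ≤ 2 ^ (M.card - 1) ∧ ∀ q, Pot c M q →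
    (∃ D ∈ F, Ok c M q D) ∨ ∀ i ∈ M, ∀ j ∈ M, q i - q j = q₀ i - q₀ j

/-- tree-like quasi-metrics -/
inductive Tr (c : ι → ι → ℝ) : Finset ι → Prop
  | single (i : ι) : Tr c {i}
  | leaf (M : Finset ι) (p u : ι) : Tr c M → p ∉ M → u ∈ M →
      (∀ i ∈ M, c i p = c i u + c u p ∧ c p i = c p u + c u i) → Tr c (insert p M)

lemma Srv.mono {M : Finset ι} {k l : ℕ} (h : Srv c M k) (hkl : k ≤ l) : Srv c M l := by
  obtain ⟨F, h1, h2⟩ := h
  exact ⟨F, h1.trans hkl, h2⟩

/-- the point `p` is put above or below everything -/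
noncomputable def up (M : Finset ι) (p : ι) (D : ι → ℝ) : ι → ℝ :=
  Function.update D p (1 + ∑ i ∈ M, |D i|)

noncomputable def dn (M : Finset ι) (p : ι) (D : ι → ℝ) : ι → ℝ :=
  Function.update D p (-(1 + ∑ i ∈ M, |D i|))

lemma abs_lt_bound (M : Finset ι) (D : ι → ℝ) {i : ι} (hi : i ∈ M) :
    |D i| < 1 + ∑ i ∈ M, |D i| := by
  have := Finset.single_le_sum (f := fun i => |D i|) (fun i _ => abs_nonneg _) hi
  linarith

/-- `p` is not between two points of `M` -/
def NM (c : ι → ι → ℝ) (M : Finset ι) (p : ι) : Prop :=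
  ∀ i ∈ M, ∀ j ∈ M, c i j < c i p + c p j

lemma ok_extend {M : Finset ι} {p : ι} (hp : p ∉ M) (hNM : NM c M p) {q D : ι → ℝ}
    (hq : Pot c (insert p M) q) (hD : Ok c M q D) :
    Ok c (insert p M) q (up M p D) ∨ Ok c (insert p M) q (dn M p D) := by
  have hne : ∀ i ∈ M, i ≠ p := fun i hi h => hp (h ▸ hi)
  by_cases hA : ∃ i ∈ M, q i - q p = c i p
  · left
    obtain ⟨a, ha, hap⟩ := hA
    intro i hi j hj hij h
    unfold up
    rcases Finset.mem_insert.1 hi with rfl | hi' <;> rcases Finset.mem_insert.1 hj with rfl | hj'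
    · exact absurd rfl hij
    · exfalso
      have h1 := hNM a ha j hj'
      have h2 := hq a (mem_insert_of_mem ha) j hj
      linarith
    · rw [Function.update_self, Function.update_of_ne (hne i hi')]
      exact lt_of_le_of_lt (le_abs_self _) (abs_lt_bound M D hi')
    · rw [Function.update_of_ne (hne i hi'), Function.update_of_ne (hne j hj')]
      exact hD i hi' j hj' hij h
  · right
    push Not at hA
    intro i hi j hj hij h
    unfold dn
    rcases Finset.mem_insert.1 hi with rfl | hi' <;> rcases Finset.mem_insert.1 hj with rfl | hj'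
    · exact absurd rfl hij
    · rw [Function.update_self, Function.update_of_ne (hne j hj')]
      have := abs_lt_bound M D hj'
      have := neg_abs_le (D j)
      linarith
    · exact absurd h (hA i hi')
    · rw [Function.update_of_ne (hne i hi'), Function.update_of_ne (hne j hj')]
      exact hD i hi' j hj' hij h

lemma Pot.mono {M N : Finset ι} {q : ι → ℝ} (h : Pot c N q) (hMN : M ⊆ N) : Pot c M q :=
  fun i hi j hj => h i (hMN hi) j (hMN hj)

open Classical in
theorem srv_step {M : Finset ι} {p : ι} (hp : p ∉ M) (hNM : NM c M p) {k : ℕ}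
    (h : Srv c M k) : Srv c (insert p M) (2 * k) := by
  obtain ⟨F, hF, hs⟩ := h
  refine ⟨F.image (up M p) ∪ F.image (dn M p), ?_, fun q hq => ?_⟩
  · refine (card_union_le _ _).trans ?_
    have h1 := card_image_le (s := F) (f := up M p)
    have h2 := card_image_le (s := F) (f := dn M p)
    omega
  · obtain ⟨D, hD, hok⟩ := hs q (hq.mono (subset_insert _ _))
    rcases ok_extend hp hNM hq hok with h | h
    · exact ⟨_, mem_union_left _ (mem_image_of_mem _ hD), h⟩
    · exact ⟨_, mem_union_right _ (mem_image_of_mem _ hD), h⟩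

lemma two_pow_aux {M : Finset ι} {p : ι} (hp : p ∉ M) (hM : M.Nonempty) :
    2 ^ ((insert p M).card - 1) = 2 * 2 ^ (M.card - 1) := by
  rw [card_insert_of_notMem hp]
  have := hM.card_pos
  obtain ⟨m, hm⟩ : ∃ m, M.card = m + 1 := ⟨M.card - 1, by omega⟩
  rw [hm, Nat.add_sub_cancel, Nat.add_sub_cancel, pow_succ]
  ring

open Classical in
/-- a leaf keeps the saving property -/
theorem sav_leaf {M : Finset ι} {p u : ι} (hc : QM0 c) (hp : p ∉ M) (hu : u ∈ M)
    (hl : ∀ i ∈ M, c i p = c i u + c u p ∧ c p i = c p u + c u i) {q₀ : ι → ℝ}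
    (hq₀ : q₀ u - q₀ p = c u p ∨ q₀ p - q₀ u = c p u) (hs : Sav c M q₀) :
    Sav c (insert p M) q₀ := by
  have hne : ∀ i ∈ M, i ≠ p := fun i hi h => hp (h ▸ hi)
  have hup : 0 < c u p := hc.pos _ _ (hne u hu)
  have hpu : 0 < c p u := hc.pos _ _ (hne u hu).symm
  have hNM : NM c M p := by
    intro i hi j hj
    rw [(hl i hi).1, (hl j hj).2]
    have := hc.tri i u j
    linarith
  obtain ⟨F, hF, hs⟩ := hs
  set B : ℝ := 1 + ∑ i ∈ M, |q₀ i| with hB
  have hbd : ∀ i ∈ M, |q₀ i| < B := fun i hi => abs_lt_bound M q₀ hi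
  -- the new function
  set D₁ : ι → ℝ := Function.update (fun i => -q₀ i) p
    (if q₀ u - q₀ p = c u p then -B else B) with hD₁
  refine ⟨F.image (up M p) ∪ F.image (dn M p) ∪ {D₁}, ?_, fun q hq => ?_⟩
  · rw [two_pow_aux hp ⟨u, hu⟩]
    have h0 := card_union_le (F.image (up M p) ∪ F.image (dn M p)) {D₁}
    have h00 := card_union_le (F.image (up M p)) (F.image (dn M p))
    have h1 := card_image_le (s := F) (f := up M p)
    have h2 := card_image_le (s := F) (f := dn M p)
    rw [card_singleton] at h0
    omega
  · rcases hs q (hq.mono (subset_insert _ _)) with ⟨D, hD, hok⟩ | heq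
    · left
      rcases ok_extend hp hNM hq hok with h | h
      · exact ⟨_, mem_union_left _ (mem_union_left _ (mem_image_of_mem _ hD)), h⟩
      · exact ⟨_, mem_union_left _ (mem_union_right _ (mem_image_of_mem _ hD)), h⟩
    · by_cases hall : q u - q p = q₀ u - q₀ p
      · right
        intro i hi j hj
        have key : ∀ i ∈ insert p M, q i - q u = q₀ i - q₀ u := by
          intro i hi
          rcases Finset.mem_insert.1 hi with rfl | hi'
          · linarith
          · exact heq i hi' u hu
        have h1 := key i hi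
        have h2 := key j hj
        linarith
      · left
        refine ⟨D₁, mem_union_right _ (mem_singleton_self _), ?_⟩
        intro i hi j hj hij h
        rw [hD₁]
        rcases Finset.mem_insert.1 hi with rfl | hi' <;>
          rcases Finset.mem_insert.1 hj with rfl | hj'
        · exact absurd rfl hij
        · -- the pair `(p, j)` is tight
          rw [Function.update_self, Function.update_of_ne (hne j hj')]
          have h1 := hq i (mem_insert_self _ _) u (mem_insert_of_mem hu)
          have h2 := hq u (mem_insert_of_mem hu) j hj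
          have h3 := (hl j hj').2
          have h4 : q i - q u = c i u := by linarith
          have h5 : q₀ u - q₀ i = c u i := by
            rcases hq₀ with h5 | h5
            · exact h5
            · exfalso; apply hall; linarith
          rw [if_pos h5]
          have := hbd j hj'
          have := le_abs_self (q₀ j)
          linarith
        · -- the pair `(i, p)` is tight
          rw [Function.update_self, Function.update_of_ne (hne i hi')]
          have h1 := hq i hi u (mem_insert_of_mem hu)
          have h2 := hq u (mem_insert_of_mem hu) j (mem_insert_self _ _)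
          have h3 := (hl i hi').1
          have h4 : q u - q j = c u j := by linarith
          have h5 : ¬ q₀ u - q₀ j = c u j := by
            intro h5; apply hall; linarith
          rw [if_neg h5]
          have := hbd i hi'
          have := neg_abs_le (q₀ i)
          linarith
        · rw [Function.update_of_ne (hne i hi'), Function.update_of_ne (hne j hj')]
          have h1 := heq i hi' j hj'
          have h2 := hc.pos i j hij
          linarith

theorem Tr.nonempty {M : Finset ι} (h : Tr c M) : M.Nonempty := by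
  cases h with
  | single i => exact ⟨i, mem_singleton_self _⟩
  | leaf M p u _ _ _ _ => exact ⟨p, mem_insert_self _ _⟩

lemma pot_out (hc : QM0 c) (M : Finset ι) (j : ι) : Pot c M (fun x => -c j x) := by
  intro a _ b _
  have := hc.tri j a b
  simp only
  linarith

lemma pot_in (hc : QM0 c) (M : Finset ι) (j : ι) : Pot c M (fun x => c x j) := by
  intro a _ b _
  have := hc.tri a b j
  simp only
  linarith

lemma sav_congr {M : Finset ι} {q₀ q₁ : ι → ℝ}
    (h : ∀ i ∈ M, ∀ j ∈ M, q₀ i - q₀ j = q₁ i - q₁ j) (hs : Sav c M q₀) : Sav c M q₁ := by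
  obtain ⟨F, hF, hs⟩ := hs
  refine ⟨F, hF, fun q hq => ?_⟩
  rcases hs q hq with h1 | h1
  · exact Or.inl h1
  · right
    intro i hi j hj
    rw [h1 i hi j hj, h i hi j hj]

theorem tree_sav (hc : QM0 c) {M : Finset ι} (h : Tr c M) :
    ∀ j ∈ M, Sav c M (fun x => -c j x) ∧ Sav c M (fun x => c x j) := by
  induction h with
  | single i =>
    intro j hj
    have key : ∀ q₀ : ι → ℝ, Sav c {i} q₀ := by
      intro q₀
      refine ⟨∅, by simp, fun q _ => Or.inr ?_⟩
      intro a ha b hb
      rw [mem_singleton] at ha hb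
      rw [ha, hb, sub_self, sub_self]
    exact ⟨key _, key _⟩
  | leaf M p u _ hp hu hl ih =>
    intro j hj
    have hpp := hc.diag p
    rcases Finset.mem_insert.1 hj with rfl | hj'
    · constructor
      · refine sav_leaf hc hp hu hl (Or.inr ?_) ?_
        · rw [hpp]; ring
        · refine sav_congr ?_ (ih u hu).1
          intro a ha b hb
          rw [(hl a ha).2, (hl b hb).2]
          ring
      · refine sav_leaf hc hp hu hl (Or.inl ?_) ?_
        · rw [hpp]; ring
        · refine sav_congr ?_ (ih u hu).2
          intro a ha b hb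
          rw [(hl a ha).1, (hl b hb).1]
          ring
    · constructor
      · refine sav_leaf hc hp hu hl (Or.inl ?_) (ih j hj').1
        rw [(hl j hj').1]
        ring
      · refine sav_leaf hc hp hu hl (Or.inr ?_) (ih j hj').2
        rw [(hl j hj').2]
        ring

/-- `u` is a point of both sides of `p` -/
def Alive (c : ι → ι → ℝ) (M : Finset ι) (p : ι) (q₀ : ι → ℝ) (u : ι) : Prop :=
  (∀ y ∈ M, q₀ y - c y p ≤ q₀ u - c u p) ∧ ∀ y ∈ M, q₀ u + c p u ≤ q₀ y + c p y

open Classical in
/-- the merging step -/
theorem merge_step {M : Finset ι} {p : ι} (hc : QM0 c) (hM : M.Nonempty) (hp : p ∉ M)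
    (hNM : NM c M p) {q₀ : ι → ℝ} (hs : Sav c M q₀) (hdead : ∀ u ∈ M, ¬ Alive c M p q₀ u) :
    Srv c (insert p M) (2 ^ ((insert p M).card - 1) - 1) := by
  have hne : ∀ i ∈ M, i ≠ p := fun i hi h => hp (h ▸ hi)
  obtain ⟨F, hF, hs⟩ := hs
  set B : ℝ := 1 + ∑ i ∈ M, |q₀ i| with hB
  have hbd : ∀ i ∈ M, |q₀ i| < B := fun i hi => abs_lt_bound M q₀ hi
  set hi2 : ι → Prop := fun i => ∀ y ∈ M, q₀ i + c p i ≤ q₀ y + c p y with hhi
  set D₁ : ι → ℝ := fun i => if i = p then 0 else if hi2 i then -q₀ i + B else -q₀ i - B with hD₁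
  refine ⟨F.image (up M p) ∪ F.image (dn M p) ∪ {D₁}, ?_, fun q hq => ?_⟩
  · rw [two_pow_aux hp hM]
    have h0 := card_union_le (F.image (up M p) ∪ F.image (dn M p)) {D₁}
    have h00 := card_union_le (F.image (up M p)) (F.image (dn M p))
    have h1 := card_image_le (s := F) (f := up M p)
    have h2 := card_image_le (s := F) (f := dn M p)
    rw [card_singleton] at h0
    omega
  · rcases hs q (hq.mono (subset_insert _ _)) with ⟨D, hD, hok⟩ | heq
    · rcases ok_extend hp hNM hq hok with h | h
      · exact ⟨_, mem_union_left _ (mem_union_left _ (mem_image_of_mem _ hD)), h⟩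
      · exact ⟨_, mem_union_left _ (mem_union_right _ (mem_image_of_mem _ hD)), h⟩
    · refine ⟨D₁, mem_union_right _ (mem_singleton_self _), ?_⟩
      intro i hi j hj hij h
      rw [hD₁]
      simp only
      rcases Finset.mem_insert.1 hi with rfl | hi' <;>
        rcases Finset.mem_insert.1 hj with rfl | hj'
      · exact absurd rfl hij
      · rw [if_pos rfl, if_neg (hne j hj')]
        have h1 : hi2 j := by
          intro y hy
          have h2 := hq i (mem_insert_self _ _) y (mem_insert_of_mem hy)
          have h3 := heq j hj' y hy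
          linarith
        rw [if_pos h1]
        have := hbd j hj'
        have := le_abs_self (q₀ j)
        linarith
      · rw [if_pos rfl, if_neg (hne i hi')]
        have h1 : ¬ hi2 i := by
          intro h2
          apply hdead i hi'
          refine ⟨?_, h2⟩
          intro y hy
          have h2 := hq y (mem_insert_of_mem hy) j (mem_insert_self _ _)
          have h3 := heq i hi' y hy
          linarith
        rw [if_neg h1]
        have := hbd i hi'
        have := neg_abs_le (q₀ i)
        linarith
      · rw [if_neg (hne i hi'), if_neg (hne j hj')]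
        have h1 := heq i hi' j hj'
        have h2 := hc.pos i j hij
        have hBpos : 0 < B := lt_of_le_of_lt (abs_nonneg _) (hbd i hi')
        by_cases hbi : hi2 i
        · have hbj : hi2 j := by
            intro y hy
            have h3 := hbi y hy
            have h4 := hc.tri p i j
            linarith
          rw [if_pos hbi, if_pos hbj]
          linarith
        · rw [if_neg hbi]
          by_cases hbj : hi2 j
          · rw [if_pos hbj]
            linarith
          · rw [if_neg hbj]
            linarith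

/-- the gate -/
theorem gate {M : Finset ι} {p : ι} (hc : QM0 c) (hM : M.Nonempty)
    (hout : ∀ j ∈ M, ∃ u ∈ M, Alive c M p (fun x => -c j x) u)
    (hin : ∀ j ∈ M, ∃ u ∈ M, Alive c M p (fun x => c x j) u) :
    ∃ u ∈ M, ∀ i ∈ M, c i p = c i u + c u p ∧ c p i = c p u + c u i := by
  obtain ⟨u, hu, humin⟩ := M.exists_min_image (fun x => c x p) hM
  obtain ⟨v, hv, hvmin⟩ := M.exists_min_image (fun x => c p x) hM
  obtain ⟨u', hu', hA, hB⟩ := hout u hu
  have e1 : u = u' := by
    by_contra hne
    have h1 := hA u hu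
    simp only at h1
    rw [hc.diag] at h1
    have h2 := humin u' hu'
    have h3 := hc.pos u u' hne
    linarith
  subst e1
  obtain ⟨v', hv', hA', hB'⟩ := hin v hv
  have e2 : v' = v := by
    by_contra hne
    have h1 := hB' v hv
    simp only at h1
    rw [hc.diag] at h1
    have h2 := hvmin v' hv'
    have h3 := hc.pos v' v hne
    linarith
  subst e2
  simp only at hB hA'
  have e3 : u = v' := by
    by_contra hne
    have h1 := hA' u hu
    rw [hc.diag] at h1
    have h2 := humin v' hv
    have h3 := hc.pos u v' hne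
    linarith
  subst e3
  refine ⟨u, hu, fun i hi => ⟨le_antisymm (hc.tri _ _ _) ?_, le_antisymm (hc.tri _ _ _) ?_⟩⟩
  · have h1 := hA' i hi
    rw [hc.diag] at h1
    linarith
  · have h1 := hB i hi
    rw [hc.diag] at h1
    linarith

/-- **Main induction.** -/
theorem elim_main (hc : QM0 c) :
    ∀ m : ℕ, ∀ M : Finset ι, M.card = m + 1 →
      (∀ N ⊆ M, 2 ≤ N.card → ∃ p ∈ N, ∀ i ∈ N, ∀ j ∈ N, i ≠ p → j ≠ p → i ≠ j →
        c i j < c i p + c p j) →
      Srv c M (2 ^ m) ∧ (¬ Srv c M (2 ^ m - 1) → Tr c M) := by
  classical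
  intro m
  induction m with
  | zero =>
    intro M hM _
    obtain ⟨i, rfl⟩ := card_eq_one.1 hM
    refine ⟨⟨{fun _ => 0}, by simp, fun q _ => ⟨_, mem_singleton_self _, ?_⟩⟩, fun _ => Tr.single i⟩
    intro a ha b hb hab
    rw [mem_singleton] at ha hb
    exact absurd (ha.trans hb.symm) hab
  | succ m ih =>
    intro M hM hel
    obtain ⟨p, hp, hpn⟩ := hel M subset_rfl (by omega)
    set M' := M.erase p with hM'
    have hpM' : p ∉ M' := notMem_erase p M
    have hins : insert p M' = M := insert_erase hp
    have hcard : M'.card = m + 1 := by rw [card_erase_of_mem hp, hM]; omega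
    have hne' : M'.Nonempty := card_pos.1 (by omega)
    have hNM : NM c M' p := by
      intro i hi j hj
      have hi' := mem_erase.1 hi
      have hj' := mem_erase.1 hj
      by_cases hij : i = j
      · subst hij
        rw [hc.diag]
        exact add_pos (hc.pos _ _ hi'.1) (hc.pos _ _ hi'.1.symm)
      · exact hpn i hi'.2 j hj'.2 hi'.1 hj'.1 hij
    obtain ⟨h1, h2⟩ := ih M' hcard fun N hN => hel N (hN.trans (erase_subset _ _))
    have hpow : 1 ≤ 2 ^ m := Nat.one_le_two_pow
    refine ⟨?_, fun hn => ?_⟩
    · have := srv_step hpM' hNM h1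
      rw [hins] at this
      refine this.mono ?_
      rw [pow_succ]
      omega
    · have hT : Tr c M' := by
        apply h2
        intro h3
        apply hn
        have := srv_step hpM' hNM h3
        rw [hins] at this
        refine this.mono ?_
        rw [pow_succ]
        omega
      have hsav := tree_sav hc hT
      have hmerge : ∀ q₀ : ι → ℝ, Sav c M' q₀ → ∃ u ∈ M', Alive c M' p q₀ u := by
        intro q₀ hq₀
        by_contra hcon
        push Not at hcon
        apply hn
        have := merge_step hc hne' hpM' hNM hq₀ hcon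
        rw [hins, hM] at this
        exact this
      obtain ⟨u, hu, hgu⟩ := gate hc hne' (fun j hj => hmerge _ (hsav j hj).1)
        (fun j hj => hmerge _ (hsav j hj).2)
      rw [← hins]
      exact Tr.leaf M' p u hT hpM' hu hgu

open Classical in
/-- two parts with a gap between them -/
theorem split_step {S T : Finset ι} (hd : Disjoint S T) {k l : ℕ}
    (hgap : ∀ i ∈ S, ∀ i' ∈ S, ∀ j ∈ T, ∀ j' ∈ T, c i i' + c j' j < c i j + c j' i')
    (h1 : Srv c S k) (h2 : Srv c T l) : Srv c (S ∪ T) (2 * (k * l)) := by
  obtain ⟨F, hF, hs⟩ := h1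
  obtain ⟨G, hG, ht⟩ := h2
  set B : (ι → ℝ) → (ι → ℝ) → ℝ := fun D D' => 1 + ∑ i ∈ S, |D i| + ∑ i ∈ T, |D' i| with hB
  set φ : (ι → ℝ) × (ι → ℝ) → ι → ℝ := fun P i =>
    if i ∈ S then P.1 i - B P.1 P.2 else P.2 i with hφ
  set ψ : (ι → ℝ) × (ι → ℝ) → ι → ℝ := fun P i =>
    if i ∈ S then P.1 i + B P.1 P.2 else P.2 i with hψ
  have hlt : ∀ D D' : ι → ℝ, ∀ i ∈ S, ∀ j ∈ T, |D i| + |D' j| < B D D' := by
    intro D D' i hi j hj
    have h3 := Finset.single_le_sum (f := fun i => |D i|) (fun i _ => abs_nonneg _) hi
    have h4 := Finset.single_le_sum (f := fun i => |D' i|) (fun i _ => abs_nonneg _) hj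
    simp only [hB]
    linarith
  refine ⟨(F ×ˢ G).image φ ∪ (F ×ˢ G).image ψ, ?_, fun q hq => ?_⟩
  · refine (card_union_le _ _).trans ?_
    have h3 := card_image_le (s := F ×ˢ G) (f := φ)
    have h4 := card_image_le (s := F ×ˢ G) (f := ψ)
    rw [card_product] at h3 h4
    have h5 := Nat.mul_le_mul hF hG
    omega
  · obtain ⟨D, hD, hok⟩ := hs q (hq.mono subset_union_left)
    obtain ⟨D', hD', hok'⟩ := ht q (hq.mono subset_union_right)
    have hTS : ∀ j ∈ T, j ∉ S := fun j hj hj' => Finset.disjoint_left.1 hd hj' hj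
    by_cases hA : ∃ i ∈ S, ∃ j ∈ T, q i - q j = c i j
    · refine ⟨φ (D, D'), mem_union_left _ (mem_image_of_mem _ (mk_mem_product hD hD')), ?_⟩
      obtain ⟨a, ha, b, hb, hab⟩ := hA
      intro i hi j hj hij h
      simp only [hφ]
      rcases Finset.mem_union.1 hi with hi' | hi' <;> rcases Finset.mem_union.1 hj with hj' | hj'
      · rw [if_pos hi', if_pos hj']
        have := hok i hi' j hj' hij h
        linarith
      · rw [if_pos hi', if_neg (hTS j hj')]
        have h3 := hlt D D' i hi' j hj'
        have h4 := le_abs_self (D i)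
        have h5 := neg_abs_le (D' j)
        linarith
      · exfalso
        have h3 := hgap a ha j hj' b hb i hi'
        have h4 := hq a (mem_union_left _ ha) j hj
        have h5 := hq i hi b (mem_union_right _ hb)
        linarith
      · rw [if_neg (hTS i hi'), if_neg (hTS j hj')]
        exact hok' i hi' j hj' hij h
    · refine ⟨ψ (D, D'), mem_union_right _ (mem_image_of_mem _ (mk_mem_product hD hD')), ?_⟩
      push Not at hA
      intro i hi j hj hij h
      simp only [hψ]
      rcases Finset.mem_union.1 hi with hi' | hi' <;> rcases Finset.mem_union.1 hj with hj' | hj'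
      · rw [if_pos hi', if_pos hj']
        have := hok i hi' j hj' hij h
        linarith
      · exact absurd h (hA i hi' j hj')
      · rw [if_neg (hTS i hi'), if_pos hj']
        have h3 := hlt D D' j hj' i hi'
        have h4 := le_abs_self (D' i)
        have h5 := neg_abs_le (D j)
        linarith
      · rw [if_neg (hTS i hi'), if_neg (hTS j hj')]
        exact hok' i hi' j hj' hij h

/-- the bound for decomposable quasi-metrics -/
theorem split_main :
    ∀ m : ℕ, ∀ M : Finset ι, M.card = m + 1 →
      (∀ N ⊆ M, 2 ≤ N.card → ∃ S ⊆ N, S.Nonempty ∧ (N \ S).Nonempty ∧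
        ∀ i ∈ S, ∀ i' ∈ S, ∀ j ∈ N \ S, ∀ j' ∈ N \ S, c i i' + c j' j < c i j + c j' i') →
      Srv c M (2 ^ m) := by
  classical
  intro m
  induction m using Nat.strong_induction_on with
  | _ m ih =>
    intro M hM hel
    rcases Nat.eq_zero_or_pos m with rfl | hm
    · obtain ⟨i, rfl⟩ := card_eq_one.1 hM
      refine ⟨{fun _ => 0}, by simp, fun q _ => ⟨_, mem_singleton_self _, ?_⟩⟩
      intro a ha b hb hab
      rw [mem_singleton] at ha hb
      exact absurd (ha.trans hb.symm) hab
    · obtain ⟨S, hS, hS1, hS2, hgap⟩ := hel M subset_rfl (by omega)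
      have hcard : S.card + (M \ S).card = M.card := by
        rw [← card_union_of_disjoint disjoint_sdiff, union_sdiff_of_subset hS]
      have h1 := hS1.card_pos
      have h2 := hS2.card_pos
      obtain ⟨a, ha⟩ : ∃ a, S.card = a + 1 := ⟨S.card - 1, by omega⟩
      obtain ⟨b, hb⟩ : ∃ b, (M \ S).card = b + 1 := ⟨(M \ S).card - 1, by omega⟩
      have hab : a + b + 1 = m := by omega
      have h3 := ih a (by omega) S ha fun N hN => hel N (hN.trans hS)
      have h4 := ih b (by omega) (M \ S) hb fun N hN => hel N (hN.trans sdiff_subset)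
      have h5 := split_step disjoint_sdiff hgap h3 h4
      rw [union_sdiff_of_subset hS, ← pow_add, mul_comm, ← pow_succ, hab] at h5
      exact h5

end Q123.PT
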