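import Pool.Agent.Q123.PT.Cases

/-!
Separation of the faces of the polar polytopes `conv {(e i - e j) / c i j}`.
-/

set_option autoImplicit false

open Finset Filter Topology
open scoped InnerProductSpace

namespace Q123.PT

variable {n : ℕ} {c : Fin (n + 1) → Fin (n + 1) → ℝ}

/-- the standard basis vectors, with `0` in the place number `0` -/
noncomputable def e (i : Fin (n + 1)) : EuclideanSpace ℝ (Fin n) :=
  Fin.cons (α := fun _ => EuclideanSpace ℝ (Fin n)) 0
    (fun k => EuclideanSpace.single k (1 : ℝ)) i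

/-- the polytope -/
def KR (c : Fin (n + 1) → Fin (n + 1) → ℝ) : Set (EuclideanSpace ℝ (Fin n)) :=
  convexHull ℝ {z | ∃ i j, i ≠ j ∧ z = (c i j)⁻¹ • (e i - e j)}

/-- every face is strictly separated from `o` by one of `N` hyperplanes -/
def SepLE (K : Set (EuclideanSpace ℝ (Fin n))) (o : EuclideanSpace ℝ (Fin n)) (N : ℕ) : Prop :=
  ∃ w : Fin N → EuclideanSpace ℝ (Fin n), ∃ b : Fin N → ℝ,
    ∀ u x₀ : EuclideanSpace ℝ (Fin n), u ≠ 0 → x₀ ∈ K → (∀ y ∈ K, ⟪u, y⟫_ℝ ≤ ⟪u, x₀⟫_ℝ) →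
      ∃ i, ⟪w i, o⟫_ℝ < b i ∧ ∀ x ∈ K, ⟪u, x⟫_ℝ = ⟪u, x₀⟫_ℝ → b i < ⟪w i, x⟫_ℝ

lemma inner_e (u : EuclideanSpace ℝ (Fin n)) (i : Fin (n + 1)) :
    ⟪u, e i⟫_ℝ = ext (fun k => u k) i := by
  unfold e ext
  refine Fin.cases ?_ (fun k => ?_) i
  · simp
  · simp only [Fin.cons_succ]
    rw [EuclideanSpace.inner_single_right]
    simp

lemma inner_v (u : EuclideanSpace ℝ (Fin n)) (i j : Fin (n + 1)) :
    ⟪u, (c i j)⁻¹ • (e i - e j)⟫_ℝ =
      (c i j)⁻¹ * (ext (fun k => u k) i - ext (fun k => u k) j) := by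
  rw [real_inner_smul_right, inner_sub_right, inner_e, inner_e]

theorem sep_of_served {N : ℕ} (hc : QM c) (hs : Served c N) : SepLE (KR c) 0 N := by
  classical
  obtain ⟨D, hD⟩ := hs
  obtain ⟨t, ht0, ht⟩ : ∃ t : ℝ, 0 < t ∧ ∀ i j, c i j < t := by
    obtain ⟨t, ht⟩ := (Set.finite_range fun p : Fin (n + 1) × Fin (n + 1) => c p.1 p.2).bddAbove
    exact ⟨max t 0 + 1, by positivity, fun i j =>
      lt_of_le_of_lt ((ht ⟨(i, j), rfl⟩).trans (le_max_left t 0)) (lt_add_one _)⟩
  let w : Fin N → EuclideanSpace ℝ (Fin n) := fun l =>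
    WithLp.toLp 2 fun k => -((D l k.succ : ℝ) - D l 0)
  have hw : ∀ l i, ext (fun k => (w l) k) i = -((D l i : ℝ) - D l 0) := by
    intro l i
    unfold ext
    refine Fin.cases ?_ (fun k => ?_) i
    · simp
    · simp only [Fin.cons_succ]
      rfl
  refine ⟨w, fun _ => (2 * t)⁻¹, fun u x₀ hu hx₀ hmax => ?_⟩
  set β : ℝ := ⟪u, x₀⟫_ℝ with hβ
  set q0 : Fin n → ℝ := fun k => u k with hq0
  have hv : ∀ i j, i ≠ j → (c i j)⁻¹ • (e i - e j) ∈ KR c := fun i j hij =>
    subset_convexHull ℝ _ ⟨i, j, hij, rfl⟩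
  have hle : ∀ i j, i ≠ j → ext q0 i - ext q0 j ≤ β * c i j := by
    intro i j hij
    have h1 := hmax _ (hv i j hij)
    rw [inner_v] at h1
    have h2 := hc.1 i j hij
    rwa [inv_mul_le_iff₀ h2, mul_comm] at h1
  have hβ0 : 0 < β := by
    by_contra hcon
    push Not at hcon
    apply hu
    ext k
    have h1 := hle k.succ 0 (Fin.succ_ne_zero k)
    have h2 := hle 0 k.succ (Fin.succ_ne_zero k).symm
    have h3 := hc.1 k.succ 0 (Fin.succ_ne_zero k)
    have h4 := hc.1 0 k.succ (Fin.succ_ne_zero k).symm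
    unfold ext at h1 h2
    rw [Fin.cons_zero, Fin.cons_succ] at h1 h2
    have h5 : u k ≤ 0 := by
      have : β * c k.succ 0 ≤ 0 := mul_nonpos_of_nonpos_of_nonneg hcon h3.le
      have : q0 k ≤ 0 := by linarith
      exact this
    have h6 : 0 ≤ u k := by
      have : β * c 0 k.succ ≤ 0 := mul_nonpos_of_nonpos_of_nonneg hcon h4.le
      have : 0 ≤ q0 k := by linarith
      exact this
    exact le_antisymm h5 h6
  set q : Fin n → ℝ := β⁻¹ • q0 with hq
  have hqe : ∀ i, ext q i = β⁻¹ * ext q0 i := fun i => ext_smul _ _ _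
  have hqb : q ∈ body c := by
    intro i j hij
    rw [hqe, hqe, ← mul_sub, inv_mul_le_iff₀ hβ0]
    exact hle i j hij
  have htight : ∀ i j, ext q i - ext q j = c i j ↔ ext q0 i - ext q0 j = β * c i j := by
    intro i j
    rw [hqe, hqe, ← mul_sub, inv_mul_eq_iff_eq_mul₀ hβ0.ne']
  -- a tight pair exists
  have hex : ∃ i j, i ≠ j ∧ ext q i - ext q j = c i j := by
    by_contra hcon
    push Not at hcon
    have hlt : ∀ i j, i ≠ j → (c i j)⁻¹ * (ext q0 i - ext q0 j) < β := by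
      intro i j hij
      have h2 := hc.1 i j hij
      rw [inv_mul_lt_iff₀ h2, mul_comm]
      exact lt_of_le_of_ne (hle i j hij) fun h => hcon i j hij ((htight i j).2 h)
    have hev : ∀ᶠ η : ℝ in 𝓝[>] 0, ∀ i j, i ≠ j → (c i j)⁻¹ * (ext q0 i - ext q0 j) ≤ β - η := by
      rw [eventually_all]
      intro i
      rw [eventually_all]
      intro j
      by_cases hij : i = j
      · exact Eventually.of_forall fun η h => absurd hij h
      · have h1 : ∀ᶠ η : ℝ in 𝓝[>] 0, η < β - (c i j)⁻¹ * (ext q0 i - ext q0 j) :=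
          (nhdsWithin_le_nhds : 𝓝[>] (0 : ℝ) ≤ 𝓝 0)
            (Iio_mem_nhds (by linarith [hlt i j hij]))
        filter_upwards [h1] with η hη _
        linarith
    obtain ⟨η, hη, hη0⟩ := (hev.and self_mem_nhdsWithin).exists
    have hη0 : 0 < η := hη0
    have hsub : KR c ⊆ {z | ⟪u, z⟫_ℝ ≤ β - η} := by
      apply convexHull_min
      · rintro z ⟨i, j, hij, rfl⟩
        change ⟪u, (c i j)⁻¹ • (e i - e j)⟫_ℝ ≤ β - η
        rw [inner_v]
        exact hη i j hij
      · intro x hx y hy a b ha hb hab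
        change ⟪u, a • x + b • y⟫_ℝ ≤ β - η
        have hx : ⟪u, x⟫_ℝ ≤ β - η := hx
        have hy : ⟪u, y⟫_ℝ ≤ β - η := hy
        rw [inner_add_right, real_inner_smul_right, real_inner_smul_right]
        have h1 := mul_le_mul_of_nonneg_left hx ha
        have h2 := mul_le_mul_of_nonneg_left hy hb
        have h3 : β - η = a * (β - η) + b * (β - η) := by rw [← add_mul, hab, one_mul]
        linarith
    have := hsub hx₀
    have : β ≤ β - η := this
    linarith
  obtain ⟨l, hl⟩ := hD q hqb hex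
  refine ⟨l, by rw [inner_zero_right]; positivity, fun x hx hxβ => ?_⟩
  -- a linear inequality valid on the whole polytope
  obtain ⟨M, hM0, hM⟩ : ∃ M : ℝ, 0 ≤ M ∧ ∀ i j, i ≠ j → ext q0 i - ext q0 j ≠ β * c i j →
      t⁻¹ - M * (β - (c i j)⁻¹ * (ext q0 i - ext q0 j)) ≤
        (c i j)⁻¹ * (ext (fun k => (w l) k) i - ext (fun k => (w l) k) j) := by
    obtain ⟨M, hM⟩ := (Set.finite_range fun p : Fin (n + 1) × Fin (n + 1) =>
      (t⁻¹ - (c p.1 p.2)⁻¹ * (ext (fun k => (w l) k) p.1 - ext (fun k => (w l) k) p.2)) /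
        (β - (c p.1 p.2)⁻¹ * (ext q0 p.1 - ext q0 p.2))).bddAbove
    refine ⟨max M 0, le_max_right _ _, fun i j hij hne => ?_⟩
    have h2 := hc.1 i j hij
    have hlt : (c i j)⁻¹ * (ext q0 i - ext q0 j) < β := by
      rw [inv_mul_lt_iff₀ h2, mul_comm]
      exact lt_of_le_of_ne (hle i j hij) hne
    have h3 := (hM ⟨(i, j), rfl⟩).trans (le_max_left M 0)
    simp only at h3
    rw [div_le_iff₀ (by linarith)] at h3
    linarith
  have hsub : KR c ⊆ {z | t⁻¹ - M * (β - ⟪u, z⟫_ℝ) ≤ ⟪w l, z⟫_ℝ} := by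
    apply convexHull_min
    · rintro z ⟨i, j, hij, rfl⟩
      change t⁻¹ - M * (β - ⟪u, (c i j)⁻¹ • (e i - e j)⟫_ℝ) ≤ ⟪w l, (c i j)⁻¹ • (e i - e j)⟫_ℝ
      rw [inner_v, inner_v]
      by_cases h : ext q0 i - ext q0 j = β * c i j
      · have h2 := hc.1 i j hij
        have h3 : (D l i : ℝ) + 1 ≤ D l j := by exact_mod_cast hl i j hij ((htight i j).2 h)
        have h4 : β - (c i j)⁻¹ * (ext (fun k => u k) i - ext (fun k => u k) j) = 0 := by
          change β - (c i j)⁻¹ * (ext q0 i - ext q0 j) = 0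
          rw [h]
          field_simp
          ring
        rw [h4, mul_zero, sub_zero, hw, hw]
        have h5 : t⁻¹ ≤ (c i j)⁻¹ := inv_anti₀ h2 (ht i j).le
        have h6 : (0 : ℝ) < (c i j)⁻¹ := inv_pos.2 h2
        nlinarith
      · exact hM i j hij h
    · intro x hx y hy a b ha hb hab
      change t⁻¹ - M * (β - ⟪u, a • x + b • y⟫_ℝ) ≤ ⟪w l, a • x + b • y⟫_ℝ
      have hx : t⁻¹ - M * (β - ⟪u, x⟫_ℝ) ≤ ⟪w l, x⟫_ℝ := hx
      have hy : t⁻¹ - M * (β - ⟪u, y⟫_ℝ) ≤ ⟪w l, y⟫_ℝ := hy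
      rw [inner_add_right, inner_add_right, real_inner_smul_right, real_inner_smul_right,
        real_inner_smul_right, real_inner_smul_right]
      have h1 := mul_le_mul_of_nonneg_left hx ha
      have h2 := mul_le_mul_of_nonneg_left hy hb
      have h3 : t⁻¹ - M * β = a * (t⁻¹ - M * β) + b * (t⁻¹ - M * β) := by
        rw [← add_mul, hab, one_mul]
      nlinarith
  have h7 := hsub hx
  have h7 : t⁻¹ - M * (β - ⟪u, x⟫_ℝ) ≤ ⟪w l, x⟫_ℝ := h7
  rw [hxβ, sub_self, mul_zero, sub_zero] at h7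
  refine lt_of_lt_of_le ?_ h7
  exact inv_strictAnti₀ ht0 (by linarith)

/-- the case of a cross-body -/
theorem cross_case (hc : QM c)
    (h : ∀ i j : Fin n, i ≠ j → c i.succ j.succ = c i.succ 0 + c 0 j.succ) :
    ∃ v : Fin n → EuclideanSpace ℝ (Fin n), ∃ t : Fin n → ℝ,
      LinearIndependent ℝ v ∧ (∀ i, 0 < t i) ∧
        KR c = convexHull ℝ (⋃ i, ({0 + v i, 0 - t i • v i} : Set (EuclideanSpace ℝ (Fin n)))) := by
  have hp : ∀ k : Fin n, 0 < c k.succ 0 := fun k => hc.1 _ _ (Fin.succ_ne_zero k)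
  have hm : ∀ k : Fin n, 0 < c 0 k.succ := fun k => hc.1 _ _ (Fin.succ_ne_zero k).symm
  have he0 : (e 0 : EuclideanSpace ℝ (Fin n)) = 0 := by unfold e; rw [Fin.cons_zero]
  have hes : ∀ k : Fin n, e k.succ = EuclideanSpace.single k (1 : ℝ) := by
    intro k; unfold e; rw [Fin.cons_succ]
  refine ⟨fun k => (c k.succ 0)⁻¹ • EuclideanSpace.single k (1 : ℝ),
    fun k => c k.succ 0 / c 0 k.succ, ?_, fun k => div_pos (hp k) (hm k), ?_⟩
  · have h1 := (EuclideanSpace.basisFun (Fin n) ℝ).toBasis.linearIndependent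
    have h2 := h1.units_smul (fun k : Fin n => Units.mk0 (c k.succ 0)⁻¹ (inv_ne_zero (hp k).ne'))
    have h3 : (fun k : Fin n => (c k.succ 0)⁻¹ • EuclideanSpace.single k (1 : ℝ)) =
        (fun k : Fin n => Units.mk0 (c k.succ 0)⁻¹ (inv_ne_zero (hp k).ne')) •
          ⇑(EuclideanSpace.basisFun (Fin n) ℝ).toBasis := by
      funext k
      simp [Units.smul_def]
    rw [h3]
    exact h2
  · have hpos : ∀ k : Fin n, (c k.succ 0)⁻¹ • EuclideanSpace.single k (1 : ℝ) =
        (c k.succ 0)⁻¹ • (e k.succ - e 0) := by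
      intro k; rw [hes, he0, sub_zero]
    have hneg : ∀ k : Fin n, 0 - (c k.succ 0 / c 0 k.succ) •
        ((c k.succ 0)⁻¹ • EuclideanSpace.single k (1 : ℝ)) = (c 0 k.succ)⁻¹ • (e 0 - e k.succ) := by
      intro k
      rw [hes, he0, smul_smul, zero_sub, zero_sub, smul_neg]
      congr 2
      have := (hp k).ne'
      field_simp
    apply Set.Subset.antisymm
    · apply convexHull_min _ (convex_convexHull ℝ _)
      rintro z ⟨i, j, hij, rfl⟩
      have hA : ∀ k : Fin n, (c k.succ 0)⁻¹ • (e k.succ - e 0) ∈ convexHull ℝ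
          (⋃ i, ({0 + (c i.succ 0)⁻¹ • EuclideanSpace.single i (1 : ℝ),
            0 - (c i.succ 0 / c 0 i.succ) • ((c i.succ 0)⁻¹ •
              EuclideanSpace.single i (1 : ℝ))} : Set (EuclideanSpace ℝ (Fin n)))) := by
        intro k
        apply subset_convexHull
        refine Set.mem_iUnion.2 ⟨k, ?_⟩
        rw [← hpos, zero_add]
        exact Set.mem_insert _ _
      have hB : ∀ k : Fin n, (c 0 k.succ)⁻¹ • (e 0 - e k.succ) ∈ convexHull ℝ
          (⋃ i, ({0 + (c i.succ 0)⁻¹ • EuclideanSpace.single i (1 : ℝ),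
            0 - (c i.succ 0 / c 0 i.succ) • ((c i.succ 0)⁻¹ •
              EuclideanSpace.single i (1 : ℝ))} : Set (EuclideanSpace ℝ (Fin n)))) := by
        intro k
        apply subset_convexHull
        refine Set.mem_iUnion.2 ⟨k, ?_⟩
        rw [← hneg]
        exact Set.mem_insert_of_mem _ rfl
      by_cases hi : i = 0
      · subst hi
        obtain ⟨k, rfl⟩ := Fin.exists_succ_eq.2 hij.symm
        exact hB k
      · obtain ⟨k, rfl⟩ := Fin.exists_succ_eq.2 hi
        by_cases hj : j = 0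
        · subst hj
          exact hA k
        · obtain ⟨m, rfl⟩ := Fin.exists_succ_eq.2 hj
          have hkm : k ≠ m := fun h => hij (by rw [h])
          have h1 := h k m hkm
          have h2 := hp k
          have h3 := hm m
          have h4 := (convex_convexHull ℝ _) (hA k) (hB m)
            (show 0 ≤ c k.succ 0 / c k.succ m.succ by rw [h1]; positivity)
            (show 0 ≤ c 0 m.succ / c k.succ m.succ by rw [h1]; positivity)
            (by rw [h1]; field_simp)
          have h5 : (c k.succ 0 / c k.succ m.succ) • ((c k.succ 0)⁻¹ • (e k.succ - e 0)) +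
              (c 0 m.succ / c k.succ m.succ) • ((c 0 m.succ)⁻¹ • (e 0 - e m.succ)) =
              (c k.succ m.succ)⁻¹ • (e k.succ - e m.succ) := by
            rw [smul_smul, smul_smul,
              show c k.succ 0 / c k.succ m.succ * (c k.succ 0)⁻¹ = (c k.succ m.succ)⁻¹ by
                have := h2.ne'
                field_simp,
              show c 0 m.succ / c k.succ m.succ * (c 0 m.succ)⁻¹ = (c k.succ m.succ)⁻¹ by
                have := h3.ne'
                field_simp, ← smul_add]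
            congr 1
            abel
          rw [← h5]
          exact h4
    · apply convexHull_min _ (convex_convexHull ℝ _)
      intro z hz
      obtain ⟨k, hk⟩ := Set.mem_iUnion.1 hz
      rcases hk with hk | hk
      · have hk : z = 0 + (c k.succ 0)⁻¹ • EuclideanSpace.single k (1 : ℝ) := hk
        rw [hk, zero_add, hpos]
        exact subset_convexHull ℝ _ ⟨k.succ, 0, Fin.succ_ne_zero k, rfl⟩
      · have hk : z = 0 - (c k.succ 0 / c 0 k.succ) •
          ((c k.succ 0)⁻¹ • EuclideanSpace.single k (1 : ℝ)) := hk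
        rw [hk, hneg]
        exact subset_convexHull ℝ _ ⟨0, k.succ, (Fin.succ_ne_zero k).symm, rfl⟩

end Q123.PT
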