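import Pool.Agent.Q123.PT.Polar
import Pool.Agent.Q123.PT.Elim

/-!
Tree-like quasi-metrics give cross-bodies.
-/

set_option autoImplicit false

open Finset
open scoped InnerProductSpace

namespace Q123.PT

variable {n : ℕ} {c : Fin (n + 1) → Fin (n + 1) → ℝ}

lemma Served.mono {a b : ℕ} (h : Served c a) (hab : a ≤ b) : Served c b := by
  obtain ⟨D, hD⟩ := h
  refine ⟨fun l => if h : (l : ℕ) < a then D ⟨l, h⟩ else fun _ => 0, fun q hq ht => ?_⟩
  obtain ⟨l, hl⟩ := hD q hq ht
  refine ⟨⟨l, l.2.trans_le hab⟩, fun i j hij h => ?_⟩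
  have h1 := hl i j hij h
  simp only [l.2, dite_true]
  exact h1

theorem served_of_srv {c₀ : Fin (n + 1) → Fin (n + 1) → ℝ} (h0 : ∀ i, c₀ i i = 0)
    (hcc : ∀ i j, i ≠ j → c₀ i j = c i j) {k : ℕ} (h : Srv c₀ univ k) : Served c k := by
  classical
  obtain ⟨F, hF, hs⟩ := h
  have key : Served c (Fintype.card F) := by
    refine served_of (κ := F)
      (fun D i => ((univ.filter fun x => D.1 x < D.1 i).card : ℤ)) ?_
    intro q hq _
    obtain ⟨D, hD, hok⟩ := hs (ext q) (by
      intro i _ j _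
      by_cases hij : i = j
      · subst hij
        rw [h0, sub_self]
      · rw [hcc i j hij]
        exact hq i j hij)
    refine ⟨⟨D, hD⟩, fun i j hij ht => ?_⟩
    have h1 := hok i (mem_univ _) j (mem_univ _) hij (by rw [hcc i j hij]; exact ht)
    have h2 : (univ.filter fun x => D x < D i).card < (univ.filter fun x => D x < D j).card := by
      apply card_lt_card
      refine ⟨fun x hx => ?_, fun hsub => ?_⟩
      · rw [mem_filter] at hx ⊢
        exact ⟨mem_univ _, hx.2.trans h1⟩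
      · have : i ∈ univ.filter fun x => D x < D i := hsub (mem_filter.2 ⟨mem_univ _, h1⟩)
        exact lt_irrefl _ (mem_filter.1 this).2
    exact_mod_cast h2
  rw [Fintype.card_coe] at key
  exact key.mono hF

/-- the segments of an edge set -/
def gens (c : Fin (n + 1) → Fin (n + 1) → ℝ) (E : Finset (Fin (n + 1) × Fin (n + 1))) :
    Set (EuclideanSpace ℝ (Fin n)) :=
  {z | ∃ a ∈ E, z = (c a.1 a.2)⁻¹ • (e a.1 - e a.2) ∨ z = (c a.2 a.1)⁻¹ • (e a.2 - e a.1)}

lemma comb {K : Set (EuclideanSpace ℝ (Fin n))} (hK : Convex ℝ K) {x y z : Fin (n + 1)}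
    {a b : ℝ} (ha : 0 < a) (hb : 0 < b) (h1 : a⁻¹ • (e x - e y) ∈ K)
    (h2 : b⁻¹ • (e y - e z) ∈ K) : (a + b)⁻¹ • ((e x : EuclideanSpace ℝ (Fin n)) - e z) ∈ K := by
  have h3 := hK h1 h2 (show 0 ≤ a / (a + b) by positivity) (show 0 ≤ b / (a + b) by positivity)
    (by field_simp)
  have h4 : (a / (a + b)) • (a⁻¹ • ((e x : EuclideanSpace ℝ (Fin n)) - e y)) +
      (b / (a + b)) • (b⁻¹ • (e y - e z)) = (a + b)⁻¹ • (e x - e z) := by
    rw [smul_smul, smul_smul,
      show a / (a + b) * a⁻¹ = (a + b)⁻¹ by field_simp,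
      show b / (a + b) * b⁻¹ = (a + b)⁻¹ by field_simp, ← smul_add]
    congr 1
    abel
  rw [← h4]
  exact h3

theorem tree_edges {c₀ : Fin (n + 1) → Fin (n + 1) → ℝ} (hc₀ : QM0 c₀)
    {M : Finset (Fin (n + 1))} (hT : Tr c₀ M) :
    ∃ E : Finset (Fin (n + 1) × Fin (n + 1)), E.card + 1 = M.card ∧ (∀ a ∈ E, a.1 ≠ a.2) ∧
      (∀ a ∈ E, a.1 ∈ M ∧ a.2 ∈ M) ∧
      (∀ i ∈ M, ∀ j ∈ M, i ≠ j → (c₀ i j)⁻¹ • (e i - e j) ∈ convexHull ℝ (gens c₀ E)) ∧
      ∀ i ∈ M, ∀ j ∈ M, (e i : EuclideanSpace ℝ (Fin n)) - e j ∈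
        Submodule.span ℝ {z | ∃ a ∈ E, z = e a.1 - e a.2} := by
  classical
  induction hT with
  | single i =>
    refine ⟨∅, by simp, by simp, by simp, ?_, ?_⟩
    · intro a ha b hb hab
      rw [mem_singleton] at ha hb
      exact absurd (ha.trans hb.symm) hab
    · intro a ha b hb
      rw [mem_singleton] at ha hb
      rw [ha, hb, sub_self]
      exact Submodule.zero_mem _
  | leaf M p u _ hp hu hl ih =>
    obtain ⟨E, h1, h2, h3, h4, h5⟩ := ih
    have hup : u ≠ p := fun h => hp (h ▸ hu)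
    have hnot : (u, p) ∉ E := fun h => hp (h3 _ h).2
    have hmono : gens c₀ E ⊆ gens c₀ (insert (u, p) E) := by
      rintro z ⟨a, ha, hz⟩
      exact ⟨a, mem_insert_of_mem ha, hz⟩
    have hK := convexHull_mono (𝕜 := ℝ) hmono
    have hcv : Convex ℝ (convexHull ℝ (gens c₀ (insert (u, p) E))) := convex_convexHull ℝ _
    have g1 : (c₀ u p)⁻¹ • (e u - e p) ∈ convexHull ℝ (gens c₀ (insert (u, p) E)) :=
      subset_convexHull ℝ _ ⟨(u, p), mem_insert_self _ _, Or.inl rfl⟩
    have g2 : (c₀ p u)⁻¹ • (e p - e u) ∈ convexHull ℝ (gens c₀ (insert (u, p) E)) :=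
      subset_convexHull ℝ _ ⟨(u, p), mem_insert_self _ _, Or.inr rfl⟩
    have hsp : Submodule.span ℝ {z : EuclideanSpace ℝ (Fin n) | ∃ a ∈ E, z = e a.1 - e a.2} ≤
        Submodule.span ℝ {z | ∃ a ∈ insert (u, p) E, z = e a.1 - e a.2} := by
      apply Submodule.span_mono
      rintro z ⟨a, ha, hz⟩
      exact ⟨a, mem_insert_of_mem ha, hz⟩
    have s1 : (e u : EuclideanSpace ℝ (Fin n)) - e p ∈
        Submodule.span ℝ {z | ∃ a ∈ insert (u, p) E, z = e a.1 - e a.2} :=
      Submodule.subset_span ⟨(u, p), mem_insert_self _ _, rfl⟩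
    have s2 : (e p : EuclideanSpace ℝ (Fin n)) - e u ∈
        Submodule.span ℝ {z | ∃ a ∈ insert (u, p) E, z = e a.1 - e a.2} := by
      have := Submodule.neg_mem _ s1
      rwa [neg_sub] at this
    refine ⟨insert (u, p) E, ?_, ?_, ?_, ?_, ?_⟩
    · rw [card_insert_of_notMem hnot, card_insert_of_notMem hp, h1]
    · intro a ha
      rcases mem_insert.1 ha with rfl | ha
      · exact hup
      · exact h2 a ha
    · intro a ha
      rcases mem_insert.1 ha with rfl | ha
      · exact ⟨mem_insert_of_mem hu, mem_insert_self _ _⟩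
      · exact ⟨mem_insert_of_mem (h3 a ha).1, mem_insert_of_mem (h3 a ha).2⟩
    · intro i hi j hj hij
      rcases mem_insert.1 hi with rfl | hi' <;> rcases mem_insert.1 hj with rfl | hj'
      · exact absurd rfl hij
      · by_cases huj : u = j
        · subst huj
          exact g2
        · rw [(hl j hj').2]
          exact comb hcv (hc₀.pos _ _ hup.symm) (hc₀.pos _ _ huj) g2 (hK (h4 u hu j hj' huj))
      · by_cases hui : i = u
        · subst hui
          exact g1
        · rw [(hl i hi').1]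
          exact comb hcv (hc₀.pos _ _ hui) (hc₀.pos _ _ hup) (hK (h4 i hi' u hu hui)) g1
      · exact hK (h4 i hi' j hj' hij)
    · intro i hi j hj
      rcases mem_insert.1 hi with rfl | hi' <;> rcases mem_insert.1 hj with rfl | hj'
      · rw [sub_self]
        exact Submodule.zero_mem _
      · have := Submodule.add_mem _ s2 (hsp (h5 u hu j hj'))
        rwa [sub_add_sub_cancel] at this
      · have := Submodule.add_mem _ (hsp (h5 i hi' u hu)) s1
        rwa [sub_add_sub_cancel] at this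
      · exact hsp (h5 i hi' j hj')

/-- cross-bodies centred at the origin -/
def Cross (K : Set (EuclideanSpace ℝ (Fin n))) : Prop :=
  ∃ v : Fin n → EuclideanSpace ℝ (Fin n), ∃ t : Fin n → ℝ,
    LinearIndependent ℝ v ∧ (∀ i, 0 < t i) ∧
      K = convexHull ℝ (⋃ i, ({0 + v i, 0 - t i • v i} : Set (EuclideanSpace ℝ (Fin n))))

lemma e_zero : (e 0 : EuclideanSpace ℝ (Fin n)) = 0 := by unfold e; rw [Fin.cons_zero]

lemma e_succ (k : Fin n) : e k.succ = EuclideanSpace.single k (1 : ℝ) := by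
  unfold e; rw [Fin.cons_succ]

theorem tree_cross {c₀ : Fin (n + 1) → Fin (n + 1) → ℝ} (hc₀ : QM0 c₀)
    (hcc : ∀ i j, i ≠ j → c₀ i j = c i j) (hT : Tr c₀ (univ : Finset (Fin (n + 1)))) :
    Cross (KR c) := by
  classical
  obtain ⟨E, h1, h2, _, h4, h5⟩ := tree_edges hc₀ hT
  rw [card_univ, Fintype.card_fin] at h1
  have hE : E.card = n := by omega
  let φ : Fin n ≃ E := (Finset.equivFinOfCardEq hE).symm
  have hpos : ∀ k : Fin n, 0 < c₀ (φ k).1.1 (φ k).1.2 := fun k => hc₀.pos _ _ (h2 _ (φ k).2)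
  have hpos' : ∀ k : Fin n, 0 < c₀ (φ k).1.2 (φ k).1.1 := fun k => hc₀.pos _ _ (h2 _ (φ k).2).symm
  let v : Fin n → EuclideanSpace ℝ (Fin n) := fun k =>
    (c₀ (φ k).1.1 (φ k).1.2)⁻¹ • (e (φ k).1.1 - e (φ k).1.2)
  let t : Fin n → ℝ := fun k => c₀ (φ k).1.1 (φ k).1.2 / c₀ (φ k).1.2 (φ k).1.1
  have hneg : ∀ k, 0 - t k • v k = (c₀ (φ k).1.2 (φ k).1.1)⁻¹ • (e (φ k).1.2 - e (φ k).1.1) := by
    intro k
    have h6 : t k * (c₀ (φ k).1.1 (φ k).1.2)⁻¹ = (c₀ (φ k).1.2 (φ k).1.1)⁻¹ := by
      have := (hpos k).ne'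
      have := (hpos' k).ne'
      simp only [t]
      field_simp
    simp only [v]
    rw [smul_smul, h6, zero_sub, ← smul_neg, neg_sub]
  refine ⟨v, t, ?_, fun k => div_pos (hpos k) (hpos' k), ?_⟩
  · apply linearIndependent_of_top_le_span_of_card_eq_finrank
    · rw [← (EuclideanSpace.basisFun (Fin n) ℝ).toBasis.span_eq, Submodule.span_le]
      rintro z ⟨k, rfl⟩
      have h6 := h5 k.succ (mem_univ _) 0 (mem_univ _)
      rw [e_zero, sub_zero, e_succ] at h6
      have h7 : Submodule.span ℝ {z : EuclideanSpace ℝ (Fin n) | ∃ a ∈ E, z = e a.1 - e a.2} ≤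
          Submodule.span ℝ (Set.range v) := by
        rw [Submodule.span_le]
        rintro z ⟨a, ha, rfl⟩
        have h8 : v (φ.symm ⟨a, ha⟩) = (c₀ a.1 a.2)⁻¹ • (e a.1 - e a.2) := by
          simp only [v, Equiv.apply_symm_apply]
        have h9 : (e a.1 : EuclideanSpace ℝ (Fin n)) - e a.2 =
            c₀ a.1 a.2 • v (φ.symm ⟨a, ha⟩) := by
          rw [h8, smul_smul, mul_inv_cancel₀ (hc₀.pos _ _ (h2 a ha)).ne', one_smul]
        rw [h9]
        exact Submodule.smul_mem _ _ (Submodule.subset_span ⟨_, rfl⟩)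
      have h10 := h7 h6
      simpa using h10
    · rw [Fintype.card_fin, finrank_euclideanSpace_fin]
  · apply Set.Subset.antisymm
    · apply convexHull_min _ (convex_convexHull ℝ _)
      rintro z ⟨i, j, hij, rfl⟩
      rw [← hcc i j hij]
      refine convexHull_mono ?_ (h4 i (mem_univ _) j (mem_univ _) hij)
      rintro z ⟨a, ha, hz | hz⟩
      · refine Set.mem_iUnion.2 ⟨φ.symm ⟨a, ha⟩, ?_⟩
        left
        rw [hz, zero_add]
        simp only [v, Equiv.apply_symm_apply]
      · refine Set.mem_iUnion.2 ⟨φ.symm ⟨a, ha⟩, ?_⟩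
        right
        rw [hz]
        rw [Set.mem_singleton_iff, hneg]
        simp only [Equiv.apply_symm_apply]
    · apply convexHull_min _ (convex_convexHull ℝ _)
      intro z hz
      obtain ⟨k, hk⟩ := Set.mem_iUnion.1 hz
      rcases hk with hk | hk
      · rw [hk, zero_add]
        simp only [v]
        rw [hcc _ _ (h2 _ (φ k).2)]
        exact subset_convexHull ℝ _ ⟨_, _, h2 _ (φ k).2, rfl⟩
      · rw [Set.mem_singleton_iff] at hk
        rw [hk, hneg, hcc _ _ (h2 _ (φ k).2).symm]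
        exact subset_convexHull ℝ _ ⟨_, _, (h2 _ (φ k).2).symm, rfl⟩

/-- the diagonal is replaced by zeros -/
def zd (c : Fin (n + 1) → Fin (n + 1) → ℝ) (i j : Fin (n + 1)) : ℝ := if i = j then 0 else c i j

lemma zd_ne {i j : Fin (n + 1)} (h : i ≠ j) : zd c i j = c i j := if_neg h

lemma qm0_zd (hc : QM c) : QM0 (zd c) := by
  refine ⟨fun i => if_pos rfl, fun i j hij => ?_, fun i j k => ?_⟩
  · rw [zd_ne hij]
    exact hc.1 i j hij
  · by_cases hij : i = j
    · subst hij
      have : zd c i i = 0 := if_pos rfl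
      rw [this, zero_add]
    · by_cases hjk : j = k
      · subst hjk
        have : zd c j j = 0 := if_pos rfl
        rw [this, add_zero]
      · rw [zd_ne hij, zd_ne hjk]
        by_cases hik : i = k
        · subst hik
          have : zd c i i = 0 := if_pos rfl
          rw [this]
          exact (add_pos (hc.1 _ _ hij) (hc.1 _ _ hjk)).le
        · rw [zd_ne hik]
          exact hc.2 i j k hij hjk hik

/-- every set of at least two points contains a point which is not between two others -/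
def Elim (c : Fin (n + 1) → Fin (n + 1) → ℝ) : Prop :=
  ∀ M : Finset (Fin (n + 1)), 2 ≤ M.card → ∃ p ∈ M, ∀ i ∈ M, ∀ j ∈ M, i ≠ p → j ≠ p → i ≠ j →
    c i j < c i p + c p j

theorem elim_served (hc : QM c) (hE : Elim c) :
    Served c (2 ^ n) ∧ (¬ Served c (2 ^ n - 1) → Cross (KR c)) := by
  have h := elim_main (qm0_zd hc) n univ (by rw [card_univ, Fintype.card_fin]) (by
    intro N _ hN
    obtain ⟨p, hp, h⟩ := hE N hN
    refine ⟨p, hp, fun i hi j hj hip hjp hij => ?_⟩
    rw [zd_ne hij, zd_ne hip, zd_ne hjp.symm]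
    exact h i hi j hj hip hjp hij)
  refine ⟨served_of_srv (fun i => if_pos rfl) (fun i j => zd_ne) h.1, fun hn => ?_⟩
  refine tree_cross (qm0_zd hc) (fun i j => zd_ne) (h.2 fun h3 => hn ?_)
  exact served_of_srv (fun i => if_pos rfl) (fun i j => zd_ne) h3

/-- every set of at least two points has two parts with a gap between them -/
def Split (c : Fin (n + 1) → Fin (n + 1) → ℝ) : Prop :=
  ∀ M : Finset (Fin (n + 1)), 2 ≤ M.card → ∃ S ⊆ M, S.Nonempty ∧ (M \ S).Nonempty ∧
    ∀ i ∈ S, ∀ i' ∈ S, ∀ j ∈ M \ S, ∀ j' ∈ M \ S,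
      (if i = i' then 0 else c i i') + (if j' = j then 0 else c j' j) < c i j + c j' i'

theorem split_served (hE : Split c) : Served c (2 ^ n) := by
  have h := split_main (c := zd c) n univ (by rw [card_univ, Fintype.card_fin]) (by
    intro N _ hN
    obtain ⟨S, hS, h1, h2, h⟩ := hE N hN
    refine ⟨S, hS, h1, h2, fun i hi i' hi' j hj j' hj' => ?_⟩
    have hne : ∀ a ∈ S, ∀ b ∈ N \ S, a ≠ b := fun a ha b hb hab =>
      (mem_sdiff.1 hb).2 (hab ▸ ha)
    rw [zd_ne (hne i hi j hj), zd_ne (hne i' hi' j' hj').symm]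
    exact h i hi i' hi' j hj j' hj')
  exact served_of_srv (fun i => if_pos rfl) (fun i j => zd_ne) h

/-- finite sets in strictly convex spaces -/
theorem elim_strictConvex {E : Type*} [NormedAddCommGroup E] [NormedSpace ℝ E]
    [StrictConvexSpace ℝ E] {x : Fin (n + 1) → E} (hx : Function.Injective x) :
    Elim (fun i j => dist (x i) (x j)) := by
  intro M hM
  obtain ⟨p, hp, hmax⟩ := M.exists_max_image (fun i => dist (x i) 0)
    (card_pos.1 (by omega))
  refine ⟨p, hp, fun i hi j hj hip hjp _ => ?_⟩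
  refine lt_of_le_of_ne (dist_triangle _ _ _) fun h => ?_
  have h1 : Wbtw ℝ (x i) (x p) (x j) := dist_add_dist_eq_iff.1 h.symm
  have h2 : Sbtw ℝ (x i) (x p) (x j) := ⟨h1, fun h => hip (hx h).symm, fun h => hjp (hx h).symm⟩
  have h3 := h2.dist_lt_max_dist 0
  have h4 := hmax i hi
  have h5 := hmax j hj
  rcases lt_max_iff.1 h3 with h6 | h6
  · exact absurd h4 (not_le.2 h6)
  · exact absurd h5 (not_le.2 h6)

lemma qm_dist {E : Type*} [NormedAddCommGroup E] {x : Fin (n + 1) → E}
    (hx : Function.Injective x) : QM (fun i j => dist (x i) (x j)) :=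
  ⟨fun i j hij => dist_pos.2 fun h => hij (hx h), fun i j k _ _ _ => dist_triangle _ _ _⟩

theorem kr_compact (c : Fin (n + 1) → Fin (n + 1) → ℝ) : IsCompact (KR c) := by
  have hfin : {z : EuclideanSpace ℝ (Fin n) | ∃ i j, i ≠ j ∧ z = (c i j)⁻¹ • (e i - e j)}.Finite := by
    have : {z : EuclideanSpace ℝ (Fin n) | ∃ i j, i ≠ j ∧ z = (c i j)⁻¹ • (e i - e j)} ⊆
        Set.range fun p : Fin (n + 1) × Fin (n + 1) => (c p.1 p.2)⁻¹ • (e p.1 - e p.2) := by
      rintro z ⟨i, j, _, rfl⟩
      exact ⟨(i, j), rfl⟩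
    exact (Set.finite_range _).subset this
  exact hfin.isCompact_convexHull ℝ

theorem kr_interior (hn : 1 ≤ n) (hc : QM c) : (0 : EuclideanSpace ℝ (Fin n)) ∈ interior (KR c) := by
  classical
  have hcv : Convex ℝ (KR c) := convex_convexHull ℝ _
  have hA : ∀ k : Fin n, (c k.succ 0)⁻¹ • EuclideanSpace.single k (1 : ℝ) ∈ KR c := by
    intro k
    refine subset_convexHull ℝ _ ⟨k.succ, 0, Fin.succ_ne_zero k, ?_⟩
    rw [e_zero, e_succ, sub_zero]
  have hB : ∀ k : Fin n, -((c 0 k.succ)⁻¹ • EuclideanSpace.single k (1 : ℝ)) ∈ KR c := by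
    intro k
    refine subset_convexHull ℝ _ ⟨0, k.succ, (Fin.succ_ne_zero k).symm, ?_⟩
    rw [e_zero, e_succ, zero_sub, smul_neg]
  have hp : ∀ k : Fin n, 0 < c k.succ 0 := fun k => hc.1 _ _ (Fin.succ_ne_zero k)
  have hm : ∀ k : Fin n, 0 < c 0 k.succ := fun k => hc.1 _ _ (Fin.succ_ne_zero k).symm
  have h0 : (0 : EuclideanSpace ℝ (Fin n)) ∈ KR c := by
    obtain ⟨k⟩ : Nonempty (Fin n) := ⟨⟨0, hn⟩⟩
    have h1 := hp k
    have h2 := hm k
    have h3 := hcv (hA k) (hB k)
      (show 0 ≤ c k.succ 0 / (c k.succ 0 + c 0 k.succ) by positivity)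
      (show 0 ≤ c 0 k.succ / (c k.succ 0 + c 0 k.succ) by positivity) (by field_simp)
    rw [smul_neg, smul_smul, smul_smul,
      show c k.succ 0 / (c k.succ 0 + c 0 k.succ) * (c k.succ 0)⁻¹ =
        (c k.succ 0 + c 0 k.succ)⁻¹ by field_simp,
      show c 0 k.succ / (c k.succ 0 + c 0 k.succ) * (c 0 k.succ)⁻¹ =
        (c k.succ 0 + c 0 k.succ)⁻¹ by field_simp, add_neg_cancel] at h3
    exact h3
  set C : ℝ := ∑ k : Fin n, (c k.succ 0 + c 0 k.succ) with hC
  have hCp : ∀ k : Fin n, c k.succ 0 ≤ C ∧ c 0 k.succ ≤ C := by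
    intro k
    have h1 : c k.succ 0 + c 0 k.succ ≤ C :=
      single_le_sum (f := fun k : Fin n => c k.succ 0 + c 0 k.succ)
        (fun k _ => (add_pos (hp k) (hm k)).le) (mem_univ k)
    have := hp k
    have := hm k
    constructor <;> linarith
  rw [mem_interior]
  refine ⟨{x | ∑ k : Fin n, |x k| * C < 1}, ?_, ?_, by simp⟩
  · intro x hx
    have hx : ∑ k : Fin n, |x k| * C < 1 := hx
    let w : Fin n → ℝ := fun k => if 0 ≤ x k then |x k| * c k.succ 0 else |x k| * c 0 k.succ
    let z : Fin n → EuclideanSpace ℝ (Fin n) := fun k =>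
      if 0 ≤ x k then (c k.succ 0)⁻¹ • EuclideanSpace.single k (1 : ℝ)
      else -((c 0 k.succ)⁻¹ • EuclideanSpace.single k (1 : ℝ))
    have hw0 : ∀ k, 0 ≤ w k := by
      intro k
      have := hp k
      have := hm k
      simp only [w]
      split_ifs <;> positivity
    have hwC : ∀ k, w k ≤ |x k| * C := by
      intro k
      simp only [w]
      split_ifs
      · exact mul_le_mul_of_nonneg_left (hCp k).1 (abs_nonneg _)
      · exact mul_le_mul_of_nonneg_left (hCp k).2 (abs_nonneg _)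
    have hw1 : ∑ k, w k ≤ 1 := (sum_le_sum fun k _ => hwC k).trans hx.le
    have hwz : ∀ k, w k • z k = x k • EuclideanSpace.single k (1 : ℝ) := by
      intro k
      have h1 := (hp k).ne'
      have h2 := (hm k).ne'
      simp only [w, z]
      split_ifs with h
      · rw [smul_smul, abs_of_nonneg h, mul_assoc, mul_inv_cancel₀ h1, mul_one]
      · push Not at h
        rw [smul_neg, smul_smul, abs_of_neg h, mul_assoc, mul_inv_cancel₀ h2, mul_one, neg_smul,
          neg_neg]
    have hsum := hcv.sum_mem (t := (univ : Finset (Option (Fin n))))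
      (w := fun o => o.elim (1 - ∑ k, w k) w) (z := fun o => o.elim 0 z)
      (by
        intro o _
        cases o with
        | none => simpa using hw1
        | some k => exact hw0 k)
      (by rw [Fintype.sum_option]; simp)
      (by
        intro o _
        cases o with
        | none => exact h0
        | some k =>
          change z k ∈ KR c
          simp only [z]
          split_ifs
          · exact hA k
          · exact hB k)
    rw [Fintype.sum_option] at hsum
    have hx2 : x = ∑ k, w k • z k := by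
      simp_rw [hwz]
      have := (EuclideanSpace.basisFun (Fin n) ℝ).sum_repr x
      simpa using this.symm
    rw [hx2]
    simpa using hsum
  · refine isOpen_lt ?_ continuous_const
    refine continuous_finsetSum _ fun k _ => ?_
    exact ((EuclideanSpace.proj k : EuclideanSpace ℝ (Fin n) →L[ℝ] ℝ).continuous.abs).mul
      continuous_const

end Q123.PT
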